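import Pool.Agent.Lib.Sm.Q.NUStep
import Pool.Agent.Lib.Sm.J10a
import Pool.Agent.Lib.SmJ.I.GridDefs

/-!
Project SMITH for Jacobians over `F_q(t)` (MP_950c68_ag), general `V1`, block I: the sizes of the symbol classes `XG`.

`card_XG_le` : `#XG ≤ 2 #Irr / 2 ^ (number of the prescribed symbols)` for large degree;
`card_Irr_lower` : there are at least `q ^ D / (2 D)` monic irreducible polynomials of degree `D`.
-/

set_option autoImplicit false

open Polynomial Finset Pool.Agent.BSDP.R

namespace Pool.Agent.SmJ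

open Pool.Agent.Sm (leg Irr Dir repl repl_dir repl_off N0 PD)

open Pool.Agent.Sm

variable {k : Type} [Field k] [Finite k]

private theorem Cls_card_Irr (D : ℕ) : Nat.card (Irr k D) = (Q.irr k D).card := by
  unfold Q.irr
  rw [Nat.card_coe_set_eq, Set.ncard_eq_toFinset_card _ (Q.irr_finite (k := k) D)]

/-- There are many monic irreducible polynomials of degree `D`. -/
theorem card_Irr_lower (h2 : (2 : k) ≠ 0) (D : ℕ) (hD : 1 ≤ D) :
    (Nat.card k : ℝ) ^ D / (2 * D) ≤ Nat.card (Irr k D) := by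
  have h1 := Q.card_irr_lower h2 D hD
  have hD0 : (0 : ℝ) < D := by exact_mod_cast hD
  rw [div_le_iff₀ (by positivity), Cls_card_Irr]
  have h3 : (Nat.card k : ℝ) ^ D ≤ 2 * D * (Q.irr k D).card := by exact_mod_cast h1
  linarith

open Classical in
/-- the number of monic irreducible polynomials of degree `d` with prescribed symbols; the degrees
of the `g s` are only assumed to be different from `d` -/
private theorem Cls_count (h2 : (2 : k) ≠ 0) {S : Type} [Fintype S] (g : S → k[X])
    (hinj : Function.Injective g) (hmon : ∀ s, (g s).Monic) (hirr : ∀ s, Irreducible (g s))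
    (n : ℕ) (hn : ∑ s, (g s).natDegree ≤ n) (d : ℕ) (hd : 0 < d)
    (hdeg : ∀ s, (g s).natDegree ≠ d) (ξ : S → ZMod 2) :
    (((Q.irr k d).filter fun P => ∀ s, leg P (g s) = ξ s).card : ℝ) * 2 ^ Fintype.card S ≤
      (Q.irr k d).card + 2 ^ Fintype.card S * (23 * n * √(Nat.card k : ℝ) ^ d) := by
  have hpt : ∀ P ∈ Q.irr k d, (if ∀ s, leg P (g s) = ξ s then (2 : ℤ) ^ Fintype.card S else 0) =
      ∑ T ∈ (univ : Finset S).powerset, (∏ s ∈ T, Q.sg (ξ s)) * chiP P (∏ s ∈ T, g s) := by
    intro P hP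
    have hP2 := (Q.mem_irr d P).1 hP
    have hnd : ∀ s, ¬ P ∣ g s := by
      intro s h
      have h3 := Irreducible.associated_of_dvd hP2.2.1 (hirr s) h
      have h4 := eq_of_monic_of_associated hP2.1 (hmon s) h3
      exact hdeg s (by rw [← h4]; exact hP2.2.2)
    have e1 : (if ∀ s, leg P (g s) = ξ s then (2 : ℤ) ^ Fintype.card S else 0) =
        ∏ s : S, (if leg P (g s) = ξ s then (2 : ℤ) else 0) := by
      rw [Finset.prod_ite_zero]
      simp
    rw [e1, Finset.prod_congr rfl (fun s _ => Q.ind_eq P (g s) (hnd s) (ξ s)), Finset.prod_one_add]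
    apply sum_congr rfl
    intro T _
    rw [prod_mul_distrib, Q.chiP_prod P hP2.2.1]
  have hcount : ((((Q.irr k d).filter fun P => ∀ s, leg P (g s) = ξ s).card : ℤ)) *
      2 ^ Fintype.card S =
      ∑ T ∈ (univ : Finset S).powerset, (∏ s ∈ T, Q.sg (ξ s)) *
        ∑ P ∈ Q.irr k d, chiP P (∏ s ∈ T, g s) := by
    have e1 : ((((Q.irr k d).filter fun P => ∀ s, leg P (g s) = ξ s).card : ℤ)) *
        2 ^ Fintype.card S =
        ∑ P ∈ Q.irr k d, (if ∀ s, leg P (g s) = ξ s then (2 : ℤ) ^ Fintype.card S else 0) := by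
      rw [← sum_filter, sum_const, nsmul_eq_mul]
    rw [e1, sum_congr rfl hpt, sum_comm]
    apply sum_congr rfl
    intro T _
    rw [mul_sum]
  have hbound : ∀ T ∈ (univ : Finset S).powerset.erase ∅, ((∏ s ∈ T, Q.sg (ξ s) : ℤ) : ℝ) *
      ((∑ P ∈ Q.irr k d, chiP P (∏ s ∈ T, g s) : ℤ) : ℝ) ≤ 23 * n * √(Nat.card k : ℝ) ^ d := by
    intro T hT
    have hT0 : T ≠ ∅ := (mem_erase.1 hT).1
    obtain ⟨s0, hs0⟩ := Finset.nonempty_iff_ne_empty.2 hT0
    have hsf : Squarefree (∏ s ∈ T, g s) := by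
      apply Finset.squarefree_prod_of_pairwise_isCoprime
      · intro i _ j _ hij
        show IsRelPrime (g i) (g j)
        rcases (hirr i).dvd_or_isRelPrime (n := g j) with h | h
        swap
        · exact h
        · exfalso
          have := (Irreducible.associated_of_dvd (hirr i) (hirr j) h)
          exact hij (hinj (eq_of_monic_of_associated (hmon i) (hmon j) this))
      · intro i _
        exact (hirr i).squarefree
    have hnd : (∏ s ∈ T, g s).natDegree = ∑ s ∈ T, (g s).natDegree :=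
      natDegree_prod_of_monic _ _ (fun s _ => hmon s)
    have hle : (∏ s ∈ T, g s).natDegree ≤ n := by
      rw [hnd]
      exact (sum_le_sum_of_subset (subset_univ T)).trans hn
    have hpos : 0 < (∏ s ∈ T, g s).natDegree := by
      rw [hnd]
      exact lt_of_lt_of_le (hirr s0).natDegree_pos
        (single_le_sum (f := fun s => (g s).natDegree) (fun _ _ => Nat.zero_le _) hs0)
    have h1 := Q.irr_sum h2 _ hsf hpos d hd
    have hd1 : (1 : ℝ) ≤ d := by exact_mod_cast hd
    have h3 : |((∑ P ∈ Q.irr k d, chiP P (∏ s ∈ T, g s) : ℤ) : ℝ)| ≤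
        23 * n * √(Nat.card k : ℝ) ^ d := by
      have h4 : |((∑ P ∈ Q.irr k d, chiP P (∏ s ∈ T, g s) : ℤ) : ℝ)| ≤
          d * |((∑ P ∈ Q.irr k d, chiP P (∏ s ∈ T, g s) : ℤ) : ℝ)| := by
        nlinarith [abs_nonneg ((∑ P ∈ Q.irr k d, chiP P (∏ s ∈ T, g s) : ℤ) : ℝ)]
      refine h4.trans (h1.trans ?_)
      have h5 : ((∏ s ∈ T, g s).natDegree : ℝ) ≤ n := by exact_mod_cast hle
      have h6 : (0 : ℝ) ≤ √(Nat.card k : ℝ) ^ d := by positivity
      nlinarith
    have habs : |((∏ s ∈ T, Q.sg (ξ s) : ℤ) : ℝ)| = 1 := by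
      rw [← Int.cast_abs, Finset.abs_prod, Finset.prod_congr rfl (fun s _ => Q.abs_sg (ξ s))]
      simp
    refine (le_abs_self _).trans ?_
    rw [abs_mul, habs, one_mul]
    exact h3
  have hcR : (((Q.irr k d).filter fun P => ∀ s, leg P (g s) = ξ s).card : ℝ) *
      2 ^ Fintype.card S =
      ∑ T ∈ (univ : Finset S).powerset, ((∏ s ∈ T, Q.sg (ξ s) : ℤ) : ℝ) *
        ((∑ P ∈ Q.irr k d, chiP P (∏ s ∈ T, g s) : ℤ) : ℝ) := by
    exact_mod_cast hcount
  rw [hcR, ← Finset.add_sum_erase _ _ (empty_mem_powerset (univ : Finset S))]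
  apply add_le_add
  · rw [prod_empty, prod_empty, Int.cast_one, one_mul]
    have e1 : ∀ P ∈ Q.irr k d, chiP P 1 = 1 := fun P hP =>
      Q.chiP_one P ((Q.mem_irr d P).1 hP).2.1
    rw [sum_congr rfl e1]
    simp
  · refine (sum_le_sum hbound).trans ?_
    rw [sum_const, nsmul_eq_mul]
    apply mul_le_mul_of_nonneg_right _ (by positivity)
    have e2 : ((univ : Finset S).powerset.erase ∅).card ≤ 2 ^ Fintype.card S := by
      refine (card_le_card (erase_subset _ _)).trans ?_
      rw [card_powerset, card_univ]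
    exact_mod_cast e2

/-- The symbol classes of the grid are not larger than twice the expected size. -/
theorem card_XG_le {V1 : Type} [AddCommGroup V1] [Module (ZMod 2) V1] (h2 : (2 : k) ≠ 0)
    (d : TwData k V1) : ∃ n₀ : ℕ, ∀ (m : ℕ) (J : Type)
    (_ : Fintype J) (p : J → k[X]) (dir : Dir m ↪ J), PVec d p → DegOk d p dir →
    n₀ ≤ (∏ j, p j).natDegree →
    (Nat.card J : ℝ) ≤ 2 * Real.log (∏ j, p j).natDegree → ∀ i,
    N0 (∏ j, p j).natDegree ≤ (p (dir i)).natDegree →
    (Nat.card (XG d p dir i) : ℝ) ≤ 2 * ((Nat.card (Irr k (p (dir i)).natDegree) : ℝ) /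
      2 ^ (d.h + (Nat.card J - (m + 2)))) := by
  classical
  obtain ⟨n₀, hn₀⟩ := BJ.numeric d.h (∑ l, (d.ell l).natDegree) 46
  refine ⟨n₀, ?_⟩
  intro m J _ p dir hp hd hn hJ i hi
  set n := (∏ j, p j).natDegree with hndef
  set D := (p (dir i)).natDegree with hD
  have hnsum : n = ∑ j, (p j).natDegree := by
    rw [hndef]
    exact natDegree_prod_of_monic _ _ fun j _ => hp.monic j
  have hDpos : 0 < D := (hp.irr (dir i)).natDegree_pos
  have hDn : D ≤ n := by
    rw [hnsum]
    exact single_le_sum (f := fun j => (p j).natDegree) (fun _ _ => Nat.zero_le _)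
      (mem_univ (dir i))
  -- the family
  set F := {j : J // ∀ i', dir i' ≠ j} with hF
  let g : Fin d.h ⊕ F → k[X] := Sum.elim d.ell fun j => p j.1
  have hginj : Function.Injective g := by
    rintro (a | a) (b | b) hab
    · exact congrArg Sum.inl (d.ell_inj hab)
    · exact absurd hab.symm (hp.ne b.1 a)
    · exact absurd hab (hp.ne a.1 b)
    · exact congrArg Sum.inr (Subtype.ext (hp.inj hab))
  have hgmon : ∀ s, (g s).Monic := by
    rintro (a | a)
    · exact d.ell_monic a
    · exact hp.monic a.1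
  have hgirr : ∀ s, Irreducible (g s) := by
    rintro (a | a)
    · exact d.ell_irr a
    · exact hp.irr a.1
  have hgdeg : ∀ s, (g s).natDegree ≠ D := by
    rintro (a | a)
    · exact (hd.ell i a).ne
    · intro h
      exact a.2 i (hd.dist i a.1 h).symm
  have hgsum : ∑ s, (g s).natDegree ≤ n + ∑ l, (d.ell l).natDegree := by
    rw [Fintype.sum_sum_type, add_comm]
    apply Nat.add_le_add_right
    rw [hnsum]
    have e1 : ∑ j : F, (p j.1).natDegree =
        ∑ j ∈ univ.map (Function.Embedding.subtype fun j => ∀ i', dir i' ≠ j),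
          (p j).natDegree :=
      (sum_map univ (Function.Embedding.subtype _) fun j => (p j).natDegree).symm
    exact e1.le.trans (sum_le_sum_of_subset (subset_univ _))
  have hcardF : Fintype.card F = Nat.card J - (m + 2) := by
    have e1 : Fintype.card F = (univ.map dir)ᶜ.card := by
      have e2 : Fintype.card F = (univ.filter fun j : J => ∀ i', dir i' ≠ j).card :=
        Fintype.card_subtype _
      rw [e2]
      congr 1
      ext j
      simp
    rw [e1, card_compl, card_map, card_univ, Nat.card_eq_fintype_card]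
    simp [Fintype.card_option]
  have hcardS : Fintype.card (Fin d.h ⊕ F) = d.h + (Nat.card J - (m + 2)) := by
    rw [Fintype.card_sum, Fintype.card_fin, hcardF]
  have hmain := Cls_count h2 g hginj hgmon hgirr _ hgsum D hDpos hgdeg
    (fun s => leg (p (dir i)) (g s))
  rw [hcardS] at hmain
  set b := d.h + (Nat.card J - (m + 2)) with hb
  -- the class
  have hX : Nat.card (XG d p dir i) ≤
      ((Q.irr k D).filter fun P => ∀ s, leg P (g s) = leg (p (dir i)) (g s)).card := by
    have hmem : ∀ x : XG d p dir i, x.1.1 ∈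
        (Q.irr k D).filter fun P => ∀ s, leg P (g s) = leg (p (dir i)) (g s) := by
      intro x
      rw [mem_filter]
      refine ⟨(Q.mem_irr _ _).2 x.1.2, ?_⟩
      rintro (a | a)
      · exact x.2.1 a
      · exact x.2.2 a.1 a.2
    have h3 := Nat.card_le_card_of_injective
      (fun x : XG d p dir i => (⟨x.1.1, hmem x⟩ : {P // P ∈
        (Q.irr k D).filter fun P => ∀ s, leg P (g s) = leg (p (dir i)) (g s)})) (by
        intro x y hxy
        apply Subtype.ext
        apply Subtype.ext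
        exact Subtype.mk.inj hxy)
    refine h3.trans (le_of_eq ?_)
    rw [Nat.card_eq_fintype_card, Fintype.card_coe]
  -- numbers
  have hq3 := Q.card_ge_three h2
  have hq3' : (3 : ℝ) ≤ Nat.card k := by exact_mod_cast hq3
  have hq1 : (1 : ℝ) ≤ √(Nat.card k : ℝ) := by
    rw [Real.one_le_sqrt]
    linarith
  have hJpos : 1 ≤ Nat.card J := by
    rw [Nat.card_eq_fintype_card]
    exact Fintype.card_pos_iff.mpr ⟨dir i⟩
  have hnum := hn₀ n hn (Nat.card k) hq3' 1 (Nat.card J - 1) (by
    rw [Nat.sub_add_cancel hJpos]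
    exact hJ)
  set s : ℝ := √(Nat.card k : ℝ) with hs
  have hsD : s ^ ⌊Real.log n ^ 3⌋₊ ≤ s ^ D := pow_le_pow_right₀ hq1 hi
  have hlow := card_Irr_lower h2 D hDpos
  have hD0 : (0 : ℝ) < D := by exact_mod_cast hDpos
  rw [div_le_iff₀ (by positivity)] at hlow
  have hss : (Nat.card k : ℝ) ^ D = s ^ D * s ^ D := by
    rw [← mul_pow, hs, Real.mul_self_sqrt (Nat.cast_nonneg _)]
  rw [hss] at hlow
  have hs0 : 0 < s ^ D := by positivity
  have h2b : (2 : ℝ) ^ b ≤ 2 ^ (Nat.card J - 1 + d.h + 1) :=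
    pow_le_pow_right₀ (by norm_num) (by omega)
  have hDn' : (D : ℝ) ≤ (n + ∑ l, (d.ell l).natDegree : ℕ) := by
    exact_mod_cast (by omega : D ≤ n + ∑ l, (d.ell l).natDegree)
  set N : ℝ := ((n + ∑ l, (d.ell l).natDegree : ℕ) : ℝ) with hN
  have hN0 : 0 ≤ N := Nat.cast_nonneg _
  have herr : (2 : ℝ) ^ b * (23 * N * s ^ D) ≤ Nat.card (Irr k D) := by
    have e1 : (2 : ℝ) ^ b * 46 * (D * N) ≤ s ^ D := by
      calc (2 : ℝ) ^ b * 46 * (D * N) ≤ 2 ^ (Nat.card J - 1 + d.h + 1) * 46 * (N * N) := by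
            gcongr
        _ = ((1 : ℕ) : ℝ) * 2 ^ (Nat.card J - 1 + d.h + 1) * 46 * N ^ 2 := by
            push_cast
            ring
        _ ≤ s ^ D := hnum.trans hsD
    have e2 : (2 : ℝ) ^ b * (23 * N * s ^ D) * (2 * D) ≤ Nat.card (Irr k D) * (2 * D) := by
      calc (2 : ℝ) ^ b * (23 * N * s ^ D) * (2 * D) = (2 ^ b * 46 * (D * N)) * s ^ D := by ring
        _ ≤ s ^ D * s ^ D := mul_le_mul_of_nonneg_right e1 hs0.le
        _ ≤ Nat.card (Irr k D) * (2 * D) := hlow
    exact le_of_mul_le_mul_right e2 (by positivity)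
  have hXR : (Nat.card (XG d p dir i) : ℝ) ≤
      ((Q.irr k D).filter fun P => ∀ s, leg P (g s) = leg (p (dir i)) (g s)).card := by
    exact_mod_cast hX
  rw [← mul_div_assoc, le_div_iff₀ (by positivity)]
  have h5 : (Nat.card (XG d p dir i) : ℝ) * 2 ^ b ≤
      ((Q.irr k D).filter fun P => ∀ s, leg P (g s) = leg (p (dir i)) (g s)).card * 2 ^ b :=
    mul_le_mul_of_nonneg_right hXR (by positivity)
  have h6 : ((Q.irr k D).card : ℝ) = Nat.card (Irr k D) := by rw [Cls_card_Irr]
  rw [h6] at hmain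
  linarith

end Pool.Agent.SmJ
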