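import Pool.Agent.Lib.SmJ.I.ChOk
import Pool.Agent.Lib.SmJ.G.CodeOk

/-!
# SMITH block I, module Code: the codes over a vector of primes describe the 2-Selmer group
-/

set_option autoImplicit false

open Polynomial Finset

namespace Pool.Agent.SmJ.Code

open Pool.Agent.Sm (leg Irr)

open Pool.Agent.SmJ

variable {k : Type} [Field k] {G V V1 Pl : Type} [Group G] [AddCommGroup V] [DistribMulAction G V]
  [AddCommGroup V1] [Module (ZMod 2) V1]
variable {S : Sys G V V1 Pl} {ch : k[X] → G → ZMod 2} {d : TwData k V1} {pl : k[X] → Pl}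
  {J : Type} [Fintype J] {p : J → k[X]}

theorem homG_chiJ (h : S.Ok) (hc : ChOk S ch d pl) (hp : PVec d p) : S.HomG (chiJ ch p) :=
  IT.homG_sum h _ _ fun j _ => hc.hom _ (hp.monic j).ne_zero

theorem homG_homJ (h : S.Ok) (hc : ChOk S ch d pl) (hp : PVec d p) (c : CodeJ d J) :
    S.HomG (homJ ch d p c) :=
  IT.homG_add h (IT.homG_add h (IT.homG_smul (hc.hom _ (C_ne_zero.mpr ChOk.u_ne_zero)) _)
    (IT.homG_sum h _ _ fun i _ => IT.homG_smul (hc.hom _ (d.ell_monic i).ne_zero) _))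
    (IT.homG_sum h _ _ fun j _ => IT.homG_smul (hc.hom _ (hp.monic j).ne_zero) _)

/-- Values at `sg` of the prime `p j`. -/
theorem homJ_sg_p (hc : ChOk S ch d pl) (hp : PVec d p) (c : CodeJ d J) (j : J) :
    homJ ch d p c (S.sg (pl (p j))) = c.2.2 j := by
  classical
  rw [homJ, hc.sg_u (hp.monic j) (hp.irr j), zero_smul, zero_add,
    Finset.sum_eq_zero, zero_add, Finset.sum_eq_single j]
  · rw [hc.sg_self _ (hp.monic j) (hp.irr j), one_smul]
  · intro l _ hl
    rw [hc.sg_ne (hp.monic j) (hp.irr j) (hp.monic l) (hp.irr l)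
      (fun e => hl (hp.inj e).symm), zero_smul]
  · intro hj
    exact absurd (Finset.mem_univ j) hj
  · intro i _
    rw [hc.sg_ne (hp.monic j) (hp.irr j) (d.ell_monic i) (d.ell_irr i) (hp.ne j i), zero_smul]

/-- Values at `sg` of the bad prime `ell i`. -/
theorem homJ_sg_ell (hc : ChOk S ch d pl) (hp : PVec d p) (c : CodeJ d J) (i : Fin d.h) :
    homJ ch d p c (S.sg (pl (d.ell i))) = c.2.1 i := by
  classical
  rw [homJ, hc.sg_u (d.ell_monic i) (d.ell_irr i), zero_smul, zero_add,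
    Finset.sum_eq_single i, Finset.sum_eq_zero, add_zero]
  · rw [hc.sg_self _ (d.ell_monic i) (d.ell_irr i), one_smul]
  · intro j _
    rw [hc.sg_ne (d.ell_monic i) (d.ell_irr i) (hp.monic j) (hp.irr j)
      (fun e => hp.ne j i e.symm), zero_smul]
  · intro l _ hl
    rw [hc.sg_ne (d.ell_monic i) (d.ell_irr i) (d.ell_monic l) (d.ell_irr l)
      (fun e => hl (d.ell_inj e).symm), zero_smul]
  · intro hj
    exact absurd (Finset.mem_univ i) hj

theorem chiJ_sg_p (hc : ChOk S ch d pl) (hp : PVec d p) (j : J) :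
    chiJ ch p (S.sg (pl (p j))) = 1 := by
  classical
  rw [chiJ, Finset.sum_eq_single j]
  · exact hc.sg_self _ (hp.monic j) (hp.irr j)
  · intro l _ hl
    exact hc.sg_ne (hp.monic j) (hp.irr j) (hp.monic l) (hp.irr l) (fun e => hl (hp.inj e).symm)
  · intro hj
    exact absurd (Finset.mem_univ j) hj

theorem chiJ_sg_off (hc : ChOk S ch d pl) (hp : PVec d p) {P : k[X]} (hP : P.Monic)
    (hP' : Irreducible P) (hne : ∀ j, p j ≠ P) : chiJ ch p (S.sg (pl P)) = 0 := by
  rw [chiJ]
  exact Finset.sum_eq_zero fun j _ => hc.sg_ne hP hP' (hp.monic j) (hp.irr j) (hne j).symm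

theorem homJ_inj (hc : ChOk S ch d pl) (hp : PVec d p) : Function.Injective (homJ ch d p) := by
  intro c c' hcc
  obtain ⟨c1, c2, c3⟩ := c
  obtain ⟨c1', c2', c3'⟩ := c'
  have e3 : c3 = c3' := by
    funext j
    have := congrFun hcc (S.sg (pl (p j)))
    rwa [homJ_sg_p hc hp, homJ_sg_p hc hp] at this
  have e2 : c2 = c2' := by
    funext i
    have := congrFun hcc (S.sg (pl (d.ell i)))
    rwa [homJ_sg_ell hc hp, homJ_sg_ell hc hp] at this
  subst e2 e3
  obtain ⟨s, hs⟩ := hc.u_ne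
  have hs1 : ch (C d.u) s = 1 := (IT.z2_cases _).resolve_left hs
  have := congrFun hcc s
  simp only [homJ, hs1, one_smul, add_assoc] at this
  have e1 := add_right_cancel this
  rw [e1]

/-- The code `kapJ w` codes the coboundary of a half of `iota w`. -/
theorem homJ_kap (h : S.Ok) (hc : ChOk S ch d pl) (w : V1) (z : V)
    (hz : (2 : ℕ) • z = S.iota w) (s : G) :
    S.iota (homJ ch d p (kapJ d J w) s) = dl (chiJ ch p) z s := by
  have e1 : homJ ch d p (kapJ d J w) s =
      (∑ i, ch (d.ell i) s • d.T i w + ch (C d.u) s • d.Tc w) + chiJ ch p s • w := by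
    simp only [homJ, kapJ, chiJ, Finset.sum_smul]
    abel
  have e2 := hc.tor w z hz s
  rw [e1, map_add, ← e2, dl]
  rcases IT.z2_cases (chiJ ch p s) with h0 | h0
  · rw [tw_of_zero _ h0, h0, zero_smul, map_zero, add_zero]
  · rw [tw_of_one _ h0, h0, one_smul, ← Sys.neg_iota, ← hz]
    have h4 : (2 : ℕ) • (s • z - z) = 0 := by rw [e2]; exact Sys.two_iota S _
    have h5 : -(s • z - z) = s • z - z := Sys.neg_of_two h4
    rw [← h5, two_nsmul]
    abel

open Classical in
/-- The codes over a vector of primes describe the 2-Selmer group. -/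
theorem codeOk (h : S.Ok) (hc : ChOk S ch d pl) (hp : PVec d p) [Nonempty J] :
    CodeOk S ch d p where
  chi := homG_chiJ h hc hp
  hom := homG_homJ h hc hp
  inj := homJ_inj hc hp
  ram := by
    obtain ⟨j⟩ := (inferInstance : Nonempty J)
    exact ⟨pl (p j), (hc.good _ (hp.monic j) (hp.irr j)).mpr (hp.ne j), chiJ_sg_p hc hp j⟩
  kap := homJ_kap h hc
  surj := by
    intro b hb
    -- the finite set of primes
    set Q : Finset k[X] := Finset.univ.image d.ell ∪ Finset.univ.image p with hQdef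
    have hQ : ∀ P ∈ Q, P.Monic ∧ Irreducible P := by
      intro P hP
      rw [hQdef, Finset.mem_union, Finset.mem_image, Finset.mem_image] at hP
      rcases hP with ⟨i, _, rfl⟩ | ⟨j, _, rfl⟩
      · exact ⟨d.ell_monic i, d.ell_irr i⟩
      · exact ⟨hp.monic j, hp.irr j⟩
    have hun : ∀ P, P.Monic → Irreducible P → P ∉ Q → b (S.sg (pl P)) = 0 := by
      intro P hP hP' hPQ
      rw [hQdef, Finset.mem_union, not_or, Finset.mem_image, Finset.mem_image] at hPQ
      have hg : pl P ∈ S.good := (hc.good P hP hP').mpr fun i e =>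
        hPQ.1 ⟨i, Finset.mem_univ i, e.symm⟩
      have h0 : chiJ ch p (S.sg (pl P)) = 0 := chiJ_sg_off hc hp hP hP' fun j e =>
        hPQ.2 ⟨j, Finset.mem_univ j, e⟩
      exact (Sys.mem_Wl_good h (homG_chiJ h hc hp) hg h0 _).mp (hb.2 (pl P))
    obtain ⟨w, key⟩ := hc.unr_expand_V1 h hb.1 Q hQ hun
    have hdis : Disjoint (Finset.univ.image d.ell) (Finset.univ.image p) := by
      rw [Finset.disjoint_left]
      intro P hP hP'
      rw [Finset.mem_image] at hP hP'
      obtain ⟨i, _, rfl⟩ := hP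
      obtain ⟨j, _, hj⟩ := hP'
      exact hp.ne j i hj
    have hsum : ∀ F : k[X] → V1, ∑ P ∈ Q, F P = ∑ i, F (d.ell i) + ∑ j, F (p j) := by
      intro F
      rw [hQdef, Finset.sum_union hdis, Finset.sum_image (fun a _ b _ e => d.ell_inj e),
        Finset.sum_image (fun a _ b _ e => hp.inj e)]
    refine ⟨(w, (fun i => b (S.sg (pl (d.ell i)))), fun j => b (S.sg (pl (p j)))), ?_⟩
    funext s
    rw [key s, hsum (fun P => ch P s • b (S.sg (pl P))), homJ, add_assoc]

/-- The Selmer condition at the prime `p j`, explicitly. -/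
theorem condJ_eq (hc : ChOk S ch d pl) (hp : PVec d p) (c : CodeJ d J) (j : J) :
    condJ d p c j = homJ ch d p (c + kapJ d J (c.2.2 j)) (S.phi (pl (p j))) := by
  classical
  have hu : ch (C d.u) (S.phi (pl (p j))) = leg (p j) (C d.u) :=
    hc.ph _ _ (hp.monic j) (hp.irr j) (SmF.not_dvd_C (hp.irr j) ChOk.u_ne_zero)
  have hell : ∀ i, ch (d.ell i) (S.phi (pl (p j))) = leg (p j) (d.ell i) := fun i =>
    hc.ph _ _ (hp.monic j) (hp.irr j) (SmF.not_dvd_of_ne (hp.irr j) (hp.monic j) (d.ell_irr i)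
      (d.ell_monic i) (hp.ne j i))
  simp only [condJ, homJ, kapJ, Prod.fst_add, Prod.snd_add, Pi.add_apply, hu, hell]
  congr 1
  refine Finset.sum_congr rfl fun l _ => ?_
  by_cases hl : l = j
  · subst hl
    rw [IT.v1_add_self, smul_zero, smul_zero]
  · rw [hc.ph _ _ (hp.monic j) (hp.irr j) (SmF.not_dvd_of_ne (hp.irr j) (hp.monic j) (hp.irr l)
      (hp.monic l) fun e => hl (hp.inj e).symm)]

/-- The Selmer condition at `p j` is the explicit condition. -/
theorem mem_Wl_p_iff (h : S.Ok) (hc : ChOk S ch d pl) (hp : PVec d p) (c : CodeJ d J) (j : J) :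
    S.loc (pl (p j)) (homJ ch d p c) ∈ S.Wl (chiJ ch p) (pl (p j)) ↔ condJ d p c j = 0 := by
  have hg : pl (p j) ∈ S.good := (hc.good _ (hp.monic j) (hp.irr j)).mpr (hp.ne j)
  have h1 := chiJ_sg_p hc hp j
  have hx : (S.loc (pl (p j)) (homJ ch d p c)).1 = c.2.2 j := homJ_sg_p hc hp c j
  obtain ⟨z, hz⟩ := h.half (S.iota (c.2.2 j))
  rw [Sys.mem_Wl_ram h hg h1 _ (z := z) (by rw [hx]; exact hz), ← homJ_kap h hc _ z hz,
    condJ_eq hc hp, homJ_add]
  change S.iota _ = S.iota (homJ ch d p c (S.phi (pl (p j)))) ↔ homJ ch d p c _ +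
    homJ ch d p (kapJ d J (c.2.2 j)) _ = 0
  rw [h.iota_inj.eq_iff]
  constructor
  · intro e
    rw [← e]
    exact IT.v1_add_self _
  · intro e
    have := eq_neg_of_add_eq_zero_left e
    rw [IT.v1_neg] at this
    exact this.symm

theorem FJ_sub_SelpJ (h : S.Ok) (hc : ChOk S ch d pl) (hp : PVec d p) :
    FJ S ch d p ⊆ SelpJ d p := by
  intro c hcF j
  exact (mem_Wl_p_iff h hc hp c j).mp (hcF.2 _)

end Pool.Agent.SmJ.Code
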