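import Pool.Agent.Lib.SmJ.I.Few

/-!
SMITH, block I, section I4: many good pairs in every dense subset of `Y`.
-/

set_option autoImplicit false

open Finset

namespace Pool.Agent.SmJ

open Pool.Agent.SmJ.IT Pool.Agent.SmA

section tor

variable {G V V1 Pl : Type*} [Group G] [AddCommGroup V] [DistribMulAction G V]
  [AddCommGroup V1] [Module (ZMod 2) V1] {S : Sys G V V1 Pl}

/-- `V[2^k]` has at most `(#V1) ^ k` elements. -/
theorem card_tor (hS : S.Ok) (k : ℕ) : {Q : V | (2 : ℕ) ^ k • Q = 0}.Finite ∧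
    {Q : V | (2 : ℕ) ^ k • Q = 0}.ncard ≤ Nat.card V1 ^ k := by
  have := hS.fin1
  induction k with
  | zero =>
    have : {Q : V | (2 : ℕ) ^ 0 • Q = 0} = {0} := by
      ext Q
      simp
    rw [this]
    exact ⟨Set.finite_singleton 0, by simp⟩
  | succ k ih =>
    obtain ⟨h1, h2⟩ := ih
    have : Finite {Q : V | (2 : ℕ) ^ k • Q = 0} := h1
    choose hf hhf using hS.half
    -- the map `Q ↦ (2 Q, Q - half (2 Q))`
    have h3 : ∀ Q : V, (2 : ℕ) • (Q - hf ((2 : ℕ) • Q)) = 0 := by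
      intro Q
      rw [smul_sub, hhf, sub_self]
    choose w hw using fun Q => hS.iota_range _ (h3 Q)
    let J : {Q : V | (2 : ℕ) ^ (k + 1) • Q = 0} → {Q : V | (2 : ℕ) ^ k • Q = 0} × V1 := fun Q =>
      (⟨(2 : ℕ) • Q.1, by
        change (2 : ℕ) ^ k • ((2 : ℕ) • Q.1) = 0
        rw [smul_smul, ← pow_succ]
        exact Q.2⟩, w Q.1)
    have hJ : Function.Injective J := by
      intro Q Q' h
      have e1 : (2 : ℕ) • Q.1 = (2 : ℕ) • Q'.1 := congrArg (fun x => x.1.1) h
      have e2 : w Q.1 = w Q'.1 := congrArg Prod.snd h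
      apply Subtype.ext
      have e3 := hw Q.1
      rw [e2, hw Q'.1, e1] at e3
      exact (sub_left_injective e3).symm
    have hfin : Finite {Q : V | (2 : ℕ) ^ (k + 1) • Q = 0} := Finite.of_injective J hJ
    refine ⟨hfin, ?_⟩
    have h4 := Nat.card_le_card_of_injective J hJ
    rw [Nat.card_prod, Nat.card_coe_set_eq, Nat.card_coe_set_eq] at h4
    rw [pow_succ]
    exact h4.trans (Nat.mul_le_mul_right _ h2)

end tor

variable {G V V1 Pl : Type*} [Group G] [AddCommGroup V] [DistribMulAction G V]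
  [AddCommGroup V1] [Module (ZMod 2) V1] {S : Sys G V V1 Pl}
variable {ι : Type*} [Fintype ι] [DecidableEq ι] {X : ι → Type*} {r k : ℕ} {Γ : Grid S X}
variable {τ : Twr G V1 ι r}

omit [DecidableEq ι] in
/-- The number of colours. -/
theorem card_colours (hS : S.Ok) (hτ : τ.Ok Γ k) : ∃ C : Finset (Fin (r + 1) → ι → V),
    C.card ≤ (Nat.card V1 ^ k) ^ ((r + 1) * Fintype.card ι) ∧ ∀ x ∈ τ.Y Γ k, τ.col Γ k x ∈ C := by
  classical
  obtain ⟨h1, h2⟩ := card_tor hS k
  refine ⟨Fintype.piFinset fun _ => Fintype.piFinset fun _ => h1.toFinset, ?_, ?_⟩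
  · rw [Fintype.card_piFinset, prod_const, card_univ, Fintype.card_fin, Fintype.card_piFinset,
      prod_const, card_univ, ← pow_mul, mul_comm (Fintype.card ι)]
    apply Nat.pow_le_pow_left
    rw [← Set.ncard_eq_toFinset_card _ h1]
    exact h2
  · intro x hx
    rw [Fintype.mem_piFinset]
    intro l
    rw [Fintype.mem_piFinset]
    intro i
    rw [Set.Finite.mem_toFinset]
    exact lev_le (hτ.jl_le l) ((psi_spec hx l).sel.lev _)

/-- A nondegenerate cube with `PU` is good. -/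
theorem good_of_PU {B : Set (∀ i, X i)} {c0 : Fin (r + 1) → ι → V}
    (hB : ∀ x ∈ B, x ∈ τ.Y Γ k ∧ τ.col Γ k x = c0) {y z : ∀ i, X i}
    (h : τ.PU Γ k B univ y z) (hne : ∀ i, y i ≠ z i) : τ.Good Γ k y z := by
  intro i
  have h0 : τ.col Γ k y = c0 := by
    have := h.2.1 ∅ (empty_subset _)
    rw [mix_empty] at this
    exact (hB _ this).2
  refine ⟨fun j _ => hne j, fun T _ => ⟨(hB _ (h.2.1 T (subset_univ T))).1, ?_⟩,
    fun l W _ hW hj hσ T hT => ?_⟩
  · rw [(hB _ (h.2.1 T (subset_univ T))).2, h0]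
  · refine h.2.2 l W (subset_univ W) hW hj hσ T fun x hx => ?_
    have := mem_sdiff.1 (hT hx)
    exact mem_sdiff.2 ⟨mem_univ x, this.2⟩

open Classical in
/-- The number of pairs which agree in the coordinate `i`. -/
theorem card_coinc [∀ i, Fintype (X i)] (i : ι) :
    (#{p : (∀ i, X i) × (∀ i, X i) | p.1 i = p.2 i} : ℝ) =
      (Fintype.card (∀ i, X i) : ℝ) ^ 2 / Fintype.card (X i) := by
  rcases isEmpty_or_nonempty (X i) with he | hne
  · have h1 : IsEmpty (∀ i, X i) := ⟨fun x => he.false (x i)⟩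
    have h2 : Fintype.card (∀ i, X i) = 0 := Fintype.card_eq_zero
    have h3 : ({p : (∀ i, X i) × (∀ i, X i) | p.1 i = p.2 i} : Finset _) = ∅ := by
      ext p
      exact (h1.false p.1).elim
    rw [h3, h2]
    simp
  · have hpos : (0 : ℝ) < Fintype.card (X i) := by exact_mod_cast Fintype.card_pos
    have h1 := sum_update2 (X := X) i (fun a b => if a i = b i then (1 : ℝ) else 0)
    have h2 : ∑ a : ∀ i, X i, ∑ b : ∀ i, X i, ∑ z : X i, ∑ w : X i,
        (if (Function.update a i z) i = (Function.update b i w) i then (1 : ℝ) else 0) =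
        (Fintype.card (∀ i, X i) : ℝ) ^ 2 * Fintype.card (X i) := by
      simp only [Function.update_self, sum_ite_eq, mem_univ, if_true, sum_const, card_univ,
        nsmul_eq_mul, mul_one]
      ring
    rw [h2] at h1
    have h3 : (#{p : (∀ i, X i) × (∀ i, X i) | p.1 i = p.2 i} : ℝ) =
        ∑ a : ∀ i, X i, ∑ b : ∀ i, X i, (if a i = b i then (1 : ℝ) else 0) := by
      rw [← Fintype.sum_prod_type' (f := fun (a b : ∀ i, X i) => if a i = b i then (1 : ℝ) else 0), sum_boole]
    rw [h3, eq_div_iff hpos.ne']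
    have h4 : (Fintype.card (X i) : ℝ) * ((∑ a : ∀ i, X i, ∑ b : ∀ i, X i,
        (if a i = b i then (1 : ℝ) else 0)) * Fintype.card (X i)) =
        Fintype.card (X i) * (Fintype.card (∀ i, X i) : ℝ) ^ 2 := by
      linarith [h1]
    exact mul_left_cancel₀ hpos.ne' h4

/-- The number of colours in the bound (`M = #V1`). -/
def nCol (M k r d : ℕ) : ℕ := (M ^ k) ^ ((r + 1) * d)

/-- The number of classes in the bound (`M = #V1`). -/
def nCls (M N r d : ℕ) : ℕ := (M ^ d * N) ^ ((r + 1) * 4 ^ d)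

open Classical in
/-- I4: many good pairs. -/
theorem many_good [∀ i, Fintype (X i)] (hS : S.Ok) (hΓ : Γ.Ok) (hτ : τ.Ok Γ k) (N : ℕ)
    (hN : 0 < N) (hsel : ∀ x ∈ τ.Y Γ k, {b | S.IsSel1 (Γ.chi x) b}.Finite ∧
      {b | S.IsSel1 (Γ.chi x) b}.ncard ≤ N)
    (B : Finset (∀ i, X i)) (hB : ∀ x ∈ B, x ∈ τ.Y Γ k) (δ : ℝ) (hδ : 0 ≤ δ)
    (hcard : δ * Fintype.card (∀ i, X i) ≤ #B) :
    (δ / nCol (Nat.card V1) k r (Fintype.card ι)) ^ (2 ^ Fintype.card ι) /
        (nCls (Nat.card V1) N r (Fintype.card ι) : ℝ) ^ (2 ^ Fintype.card ι) *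
        (Fintype.card (∀ i, X i) : ℝ) ^ 2 ≤
      #{p : (∀ i, X i) × (∀ i, X i) | p.1 ∈ B ∧ p.2 ∈ B ∧ τ.Good Γ k p.1 p.2} +
        ∑ i, (Fintype.card (∀ i, X i) : ℝ) ^ 2 / Fintype.card (X i) := by
  have := hS.fin1
  have hcV : 0 < Nat.card V1 := Nat.card_pos
  set d := Fintype.card ι with hd
  obtain ⟨C, hC, hC'⟩ := card_colours (τ := τ) (Γ := Γ) (k := k) hS hτ
  have hncol : (0 : ℝ) < nCol (Nat.card V1) k r d := by
    unfold nCol
    positivity
  have hncls : 0 < nCls (Nat.card V1) N r d := by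
    unfold nCls
    positivity
  rcases eq_empty_or_nonempty C with hCe | hCne
  · -- no colours: `B` is empty
    have hBe : B = ∅ := by
      rw [eq_empty_iff_forall_notMem]
      intro x hx
      have := hC' x (hB x hx)
      rw [hCe] at this
      exact notMem_empty _ this
    rw [hBe, card_empty, Nat.cast_zero] at hcard
    have h0 : δ * Fintype.card (∀ i, X i) = 0 :=
      le_antisymm hcard (mul_nonneg hδ (Nat.cast_nonneg _))
    have hpos : (0 : ℝ) ≤ #{p : (∀ i, X i) × (∀ i, X i) | p.1 ∈ B ∧ p.2 ∈ B ∧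
        τ.Good Γ k p.1 p.2} + ∑ i, (Fintype.card (∀ i, X i) : ℝ) ^ 2 / Fintype.card (X i) := by
      positivity
    refine le_trans (le_of_eq ?_) hpos
    rcases mul_eq_zero.1 h0 with h1 | h1
    · rw [h1, zero_div, zero_pow (by positivity), zero_div, zero_mul]
    · rw [h1]
      simp
  -- the most frequent colour
  obtain ⟨c0, -, hc0⟩ := exists_le_card_fiber_of_nsmul_le_card_of_maps_to
    (s := B) (t := C) (f := fun x => τ.col Γ k x) (b := (#B : ℝ) / nCol (Nat.card V1) k r d)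
    (fun x hx => hC' x (hB x hx)) hCne (by
      rw [nsmul_eq_mul, mul_div_assoc', div_le_iff₀ hncol, mul_comm]
      apply mul_le_mul_of_nonneg_left _ (Nat.cast_nonneg _)
      exact_mod_cast hC)
  set B' : Finset (∀ i, X i) := {x ∈ B | τ.col Γ k x = c0} with hB'
  have hB'' : ∀ x ∈ (B' : Set (∀ i, X i)), x ∈ τ.Y Γ k ∧ τ.col Γ k x = c0 := by
    intro x hx
    have := mem_filter.1 (mem_coe.1 hx)
    exact ⟨hB x this.1, this.2⟩
  have h1 := good_cubes (X := X) (τ.PU Γ k B') (nCls (Nat.card V1) N r d) hncls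
    (fun U i hi a b hab => few_classes hS hΓ hτ B' c0 hB'' N hN
      (fun x hx => hsel x (hB'' x hx).1) U i hi a b hab)
    (δ / nCol (Nat.card V1) k r d) (by positivity) (by
      have h2 : ({x : ∀ i, X i | τ.PU Γ k B' ∅ x x} : Finset _) = B' := by
        ext x
        rw [mem_filter]
        constructor
        · rintro ⟨-, h3⟩
          have := h3.2.1 ∅ (Subset.refl _)
          rw [mix_empty] at this
          exact mem_coe.1 this
        · intro hx
          refine ⟨mem_univ x, fun _ _ => rfl, fun T hT => ?_, fun l W hW hne => ?_⟩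
          · rw [subset_empty.1 hT, mix_empty]
            exact mem_coe.2 hx
          · rw [subset_empty.1 hW] at hne
            exact absurd hne not_nonempty_empty
      rw [h2]
      refine le_trans ?_ hc0
      rw [div_mul_eq_mul_div]
      gcongr)
  refine h1.trans ?_
  have h3 : ({p : (∀ i, X i) × (∀ i, X i) | τ.PU Γ k B' univ p.1 p.2} :
        Finset ((∀ i, X i) × (∀ i, X i))) ⊆
      ({p : (∀ i, X i) × (∀ i, X i) | p.1 ∈ B ∧ p.2 ∈ B ∧ τ.Good Γ k p.1 p.2} :
        Finset ((∀ i, X i) × (∀ i, X i))) ∪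
        univ.biUnion fun i => ({p : (∀ i, X i) × (∀ i, X i) | p.1 i = p.2 i} :
          Finset ((∀ i, X i) × (∀ i, X i))) := by
    rintro ⟨y, z⟩ hp
    have hp' : τ.PU Γ k B' univ y z := (mem_filter.1 hp).2
    rw [mem_union]
    by_cases hne : ∀ i, y i ≠ z i
    · left
      rw [mem_filter]
      refine ⟨mem_univ _, ?_, ?_, good_of_PU hB'' hp' hne⟩
      · have := hp'.2.1 ∅ (empty_subset _)
        rw [mix_empty] at this
        exact (mem_filter.1 (mem_coe.1 this)).1
      · have h4 : mix univ y z = z := by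
          funext i
          exact mix_mem y z (mem_univ i)
        have := hp'.2.1 univ (Subset.refl _)
        rw [h4] at this
        exact (mem_filter.1 (mem_coe.1 this)).1
    · right
      push Not at hne
      obtain ⟨i, hi⟩ := hne
      rw [mem_biUnion]
      exact ⟨i, mem_univ i, by
        rw [mem_filter]
        exact ⟨mem_univ _, hi⟩⟩
  have h5 := (card_le_card h3).trans ((card_union_le _ _).trans
    (Nat.add_le_add_left card_biUnion_le _))
  have h6 : (#{p : (∀ i, X i) × (∀ i, X i) | τ.PU Γ k B' univ p.1 p.2} : ℝ) ≤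
      #{p : (∀ i, X i) × (∀ i, X i) | p.1 ∈ B ∧ p.2 ∈ B ∧ τ.Good Γ k p.1 p.2} +
        ∑ i, (#{p : (∀ i, X i) × (∀ i, X i) | p.1 i = p.2 i} : ℝ) := by
    exact_mod_cast h5
  refine h6.trans (le_of_eq ?_)
  congr 1
  exact sum_congr rfl fun i _ => card_coinc i

end Pool.Agent.SmJ
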