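import Pool.Agent.Lib.Sm.I.Num
import Pool.Agent.Lib.SmJ.I.Many

/-!
Project SMITH for Jacobians over `F_q(t)` (MP_950c68_ag), general `V1`, block I: the choice of the parameters in Theorem I.
-/

set_option autoImplicit false

namespace Pool.Agent.SmJ.INum

open Pool.Agent.Sm.INum

/-- A common lower bound for finitely many positive numbers. -/
private theorem exists_le_all (f : ℕ → ℝ) (hf : ∀ r, 0 < f r) (R : ℕ) :
    ∃ c : ℝ, 0 < c ∧ ∀ r, r ≤ R → c ≤ f r := by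
  induction R with
  | zero =>
    refine ⟨f 0, hf 0, fun r hr => ?_⟩
    rw [Nat.le_zero.1 hr]
  | succ R ih =>
    obtain ⟨c, hc, h⟩ := ih
    refine ⟨min c (f (R + 1)), lt_min hc (hf _), fun r hr => ?_⟩
    rcases Nat.lt_or_ge R r with h1 | h1
    · have : r = R + 1 := by omega
      rw [this]
      exact min_le_right _ _
    · exact (min_le_left _ _).trans (h r h1)

/-- The parameters of Theorem I. -/
theorem grid_num (vc hh a C K q S0 m R N0 : ℕ) (hvc : 0 < vc) (hq : 2 ≤ q) (hN0 : 0 < N0) (κ η : ℝ) (hκ : 0 < κ)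
    (hη : 0 < η) :
    ∃ (n₀ N : ℕ) (γ δ c ε : ℝ), 0 ≤ γ ∧ 0 ≤ δ ∧ 2 ≤ c * N ∧
      (∀ r, r ≤ R → c ≤ (δ / nCol vc m r (m + 2)) ^ 2 ^ (m + 2) /
        (nCls vc N0 r (m + 2) : ℝ) ^ 2 ^ (m + 2)) ∧
      (δ + 2 ^ N * γ) * 2 ^ (m + 2) ≤ η ∧
      ε + 3 * ((m + 1 : ℕ) * ε) ≤ γ ^ 2 ^ (m + 2) ∧ (m + 2 : ℕ) * ε ≤ c / 2 ∧
      ∀ n : ℕ, n₀ ≤ n → 1 ≤ n ∧ S0 < ⌊(Real.log n) ^ 3⌋₊ ∧
        ∀ t : ℕ, (t : ℝ) ≤ 2 * Real.log n →
        ∀ D : ℕ, ⌊(Real.log n) ^ 3⌋₊ ≤ D → D ≤ n → ∀ M X : ℝ, (q : ℝ) ^ D / (2 * D) ≤ M →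
          κ * (M / 2 ^ (hh + t)) ≤ X →
          0 < X ∧ 1 / X ≤ ε ∧
          ∀ rr : ℕ, rr ≤ (S0 + 4) * n →
            (C * ((2 : ℝ) ^ (hh + t) * K * (rr + 1)) ^ a * (q : ℝ) ^ (D / 2)) ^ 2 / X ^ 2 ≤ ε := by
  set δ : ℝ := η / 2 ^ (m + 3) with hδ
  have hδ0 : 0 < δ := by positivity
  obtain ⟨c, hc0, hc⟩ := exists_le_all (fun r => (δ / nCol vc m r (m + 2)) ^ 2 ^ (m + 2) /
        (nCls vc N0 r (m + 2) : ℝ) ^ 2 ^ (m + 2)) (fun r => by
          have h1 : (0 : ℝ) < nCol vc m r (m + 2) := by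
            unfold nCol
            have : (0 : ℝ) < vc := by exact_mod_cast hvc
            push_cast
            positivity
          have h2 : (0 : ℝ) < nCls vc N0 r (m + 2) := by
            unfold nCls
            have : (0 : ℝ) < N0 := by exact_mod_cast hN0
            have : (0 : ℝ) < vc := by exact_mod_cast hvc
            push_cast
            positivity
          positivity) R
  obtain ⟨N, hN⟩ := exists_nat_ge (2 / c)
  set γ : ℝ := δ / 2 ^ N with hγ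
  have hγ0 : 0 < γ := by positivity
  set ε : ℝ := min (γ ^ 2 ^ (m + 2) / (3 * m + 4)) (c / (2 * (m + 2))) with hε
  have hε0 : 0 < ε := by
    refine lt_min ?_ ?_ <;> positivity
  -- thresholds
  obtain ⟨n1, hn1, h1⟩ := small 0 (2 ^ (S0 + 1)) 1 one_pos
  obtain ⟨n3, hn3, h3⟩ := main hh a C K (S0 + 4) q hq κ ε hκ hε0
  refine ⟨max n1 n3, N, γ, δ, c, ε, hγ0.le, hδ0.le, ?_, hc, ?_, ?_, ?_, ?_⟩
  · rw [div_le_iff₀ hc0] at hN
    linarith
  · have e1 : (2 : ℝ) ^ N * γ = δ := by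
      rw [hγ]
      field_simp
    rw [e1, hδ]
    have e2 : (2 : ℝ) ^ (m + 3) = 2 * 2 ^ (m + 2) := by ring
    rw [e2]
    have e3 : (η / (2 * 2 ^ (m + 2)) + η / (2 * 2 ^ (m + 2))) * 2 ^ (m + 2) = η := by
      field_simp
      norm_num
    exact e3.le
  · have e1 : ε ≤ γ ^ 2 ^ (m + 2) / (3 * m + 4) := min_le_left _ _
    rw [le_div_iff₀ (by positivity)] at e1
    push_cast
    linarith
  · have e1 : ε ≤ c / (2 * (m + 2)) := min_le_right _ _
    rw [le_div_iff₀ (by positivity)] at e1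
    push_cast
    linarith
  · intro n hn
    have hnn1 : n1 ≤ n := (le_max_left _ _).trans hn
    have hnn3 : n3 ≤ n := (le_max_right _ _).trans hn
    have hn0 : 3 ≤ n := hn1.trans hnn1
    have hS0 : S0 < ⌊(Real.log n) ^ 3⌋₊ := by
      have e1 := h1 n hnn1 _ le_rfl
      rw [pow_zero, mul_one, one_mul] at e1
      have e2 : S0 + 1 ≤ ⌊(Real.log n) ^ 3⌋₊ / 2 := by
        by_contra hcon
        push Not at hcon
        have : (2 : ℝ) ^ (⌊(Real.log n) ^ 3⌋₊ / 2) < 2 ^ (S0 + 1) :=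
          pow_lt_pow_right₀ (by norm_num) hcon
        linarith
      omega
    refine ⟨by omega, hS0, fun t ht D hD hDn M X hM hX => ?_⟩
    have hD1 : 1 ≤ D := by omega
    have hXlow : κ * ((q : ℝ) ^ D / (2 * D) / 2 ^ (hh + t)) ≤ X := by
      refine le_trans ?_ hX
      gcongr
    obtain ⟨g1, g2, -⟩ := h3 n hnn3 t ht D hD hD1 hDn 0 (Nat.zero_le _) X hXlow
    exact ⟨g1, g2, fun rr hrr => (h3 n hnn3 t ht D hD hD1 hDn rr hrr X hXlow).2.2⟩

end Pool.Agent.SmJ.INum
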