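import Pool.Agent.Lib.SmJ.I.GridEnd
import Pool.Agent.Lib.SmJ.I.TypeInst
import Pool.Agent.Lib.SmJ.I.Code
import Pool.Agent.Lib.SmJ.I.Cls
import Pool.Agent.Lib.SmJ.I.GridNum

/-!
Project SMITH for Jacobians over `F_q(t)` (MP_950c68_ag), general `V1`, block I: Theorem I.
-/

set_option autoImplicit false

open Polynomial Finset

namespace Pool.Agent.SmJ

open Pool.Agent.Sm (leg Irr Dir repl repl_dir repl_off N0 ChebOdd Q.irr_finite)

section tools

variable {k : Type} [Field k] {V1 : Type} [AddCommGroup V1] [Module (ZMod 2) V1]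
  {d : TwData k V1} {J : Type} [Fintype J] {m : ℕ} {p : J → k[X]}
  {dir : Dir m ↪ J} {G V Pl : Type} [Group G] [AddCommGroup V] [DistribMulAction G V]
  {S : Sys G V V1 Pl} {ch : k[X] → G → ZMod 2} {pl : k[X] → Pl}

open Classical in
/-- The sum of Theorem I as a sum over the points of the grid. -/
private theorem finsum_grid [Finite k] [∀ i, Fintype (XG d p dir i)] (F : (J → k[X]) → ℝ) :
    ∑ᶠ x : (i : Dir m) → Irr k (p (dir i)).natDegree,
        (if TypEq S ch d m (repl p dir fun i => (x i).1) p then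
          F (repl p dir fun i => (x i).1) else 0) =
      ∑ x : ∀ i, XG d p dir i with TypEq S ch d m (rx d p dir x) p, F (rx d p dir x) := by
  have : ∀ i, Finite (Irr k (p (dir i)).natDegree) := fun i => (Q.irr_finite _).to_subtype
  let _ := Fintype.ofFinite ((i : Dir m) → Irr k (p (dir i)).natDegree)
  rw [finsum_eq_sum_of_fintype, ← sum_filter]
  symm
  refine sum_bij (fun x _ => fun i => (x i).1) ?_ ?_ ?_ ?_
  · intro x hx
    rw [mem_filter] at hx ⊢
    exact ⟨mem_univ _, hx.2⟩
  · intro x _ y _ hxy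
    funext i
    exact Subtype.ext (congrFun hxy i)
  · intro y hy
    rw [mem_filter] at hy
    have h := hy.2.1
    refine ⟨fun i => ⟨y i, fun l => ?_, fun j hj => ?_⟩, ?_, rfl⟩
    · have h1 := h.ell (dir i) l
      rw [repl_dir] at h1
      exact h1
    · have h1 := h.sym (dir i) j
      rw [repl_dir, repl_off _ _ _ hj] at h1
      exact h1
    · rw [mem_filter]
      exact ⟨mem_univ _, hy.2⟩
  · intro x _
    rfl

private theorem card_offJ : d.h + (offJ dir).card = d.h + (Nat.card J - (m + 2)) := by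
  have h1 := sum_dir (dir := dir) (fun _ : J => (1 : ℕ))
  simp only [sum_const, card_univ, smul_eq_mul, mul_one, Fintype.card_option,
    Fintype.card_fin] at h1
  rw [Nat.card_eq_fintype_card]
  omega

/-- The bad primes and the primes off the directions. -/
private noncomputable def B0 (d : TwData k V1) (p : J → k[X]) (dir : Dir m ↪ J) : Finset k[X] :=
  open Classical in univ.image d.ell ∪ (offJ dir).image p

private theorem mem_B0 {P : k[X]} :
    P ∈ B0 d p dir ↔ (∃ l, d.ell l = P) ∨ ∃ j, (∀ i, dir i ≠ j) ∧ p j = P := by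
  classical
  simp only [B0, mem_union, mem_image, mem_univ, true_and, mem_offJ]

private theorem sum_B0 (hp : PVec d p) : ∑ P ∈ B0 d p dir, P.natDegree ≤
    ∑ l, (d.ell l).natDegree + ∑ j ∈ offJ dir, (p j).natDegree := by
  classical
  have h1 := sum_union_inter (s₁ := univ.image d.ell) (s₂ := (offJ dir).image p)
    (f := fun P => P.natDegree)
  rw [sum_image (fun i _ j _ h => d.ell_inj h), sum_image (fun i _ j _ h => hp.inj h)] at h1
  have h2 : ∑ P ∈ B0 d p dir, P.natDegree =
      ∑ P ∈ univ.image d.ell ∪ (offJ dir).image p, P.natDegree := by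
    unfold B0
    congr!
  omega

/-- The symbols which define the classes. -/
private noncomputable def chiB (d : TwData k V1) (p : J → k[X]) (dir : Dir m ↪ J)
    (ch : k[X] → G → ZMod 2) : Fin d.h ⊕ {j // j ∈ offJ dir} → G → ZMod 2 :=
  Sum.elim (fun l => ch (d.ell l)) (fun j => ch (p j))

private noncomputable def ccB (d : TwData k V1) (p : J → k[X]) (dir : Dir m ↪ J) (P : k[X]) :
    Fin d.h ⊕ {j // j ∈ offJ dir} → ZMod 2 :=
  Sum.elim (fun l => leg P (d.ell l)) (fun j => leg P (p j))

/-- The primes of a class are those with the given symbols. -/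
private theorem mem_X (h : ChOk S ch d pl) (hp : PVec d p) (hd : DegOk d p dir) (i : Dir m)
    (P : k[X]) : (∃ x : XG d p dir i, x.1.1 = P) ↔
      P.Monic ∧ Irreducible P ∧ P.natDegree = (p (dir i)).natDegree ∧
        ∀ j, chiB d p dir ch j (S.phi (pl P)) = ccB d p dir (p (dir i)) j := by
  have key : ∀ P : k[X], P.Monic → Irreducible P → P.natDegree = (p (dir i)).natDegree →
      (∀ l, ch (d.ell l) (S.phi (pl P)) = leg P (d.ell l)) ∧
      ∀ j, (∀ i', dir i' ≠ j) → ch (p j) (S.phi (pl P)) = leg P (p j) := by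
    intro P hP hP' hdeg
    refine ⟨fun l => h.ph _ _ hP hP' (SmF.not_dvd_of_ne hP' hP (d.ell_irr l) (d.ell_monic l) ?_),
      fun j hj => h.ph _ _ hP hP' (SmF.not_dvd_of_ne hP' hP (hp.irr j) (hp.monic j) ?_)⟩
    · rintro rfl
      exact absurd hdeg (hd.ell i l).ne
    · rintro rfl
      exact hj i (hd.dist i j hdeg).symm
  constructor
  · rintro ⟨x, rfl⟩
    refine ⟨x.1.2.1, x.1.2.2.1, x.1.2.2.2, ?_⟩
    obtain ⟨h1, h2⟩ := key _ x.1.2.1 x.1.2.2.1 x.1.2.2.2
    rintro (l | ⟨j, hj⟩)
    · exact (h1 l).trans (x.2.1 l)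
    · exact (h2 j (mem_offJ.1 hj)).trans (x.2.2 j (mem_offJ.1 hj))
  · rintro ⟨hP, hP', hdeg, hs⟩
    obtain ⟨h1, h2⟩ := key P hP hP' hdeg
    exact ⟨⟨⟨P, hP, hP', hdeg⟩, fun l => (h1 l).symm.trans (hs (Sum.inl l)),
      fun j hj => (h2 j hj).symm.trans (hs (Sum.inr ⟨j, mem_offJ.2 hj⟩))⟩, rfl⟩

private theorem deg_sum (hp : PVec d p) :
    (∏ j, p j).natDegree = ∑ i, (p (dir i)).natDegree + ∑ j ∈ offJ dir, (p j).natDegree := by
  rw [← sum_dir (dir := dir) (fun j => (p j).natDegree),
    natDegree_prod_of_monic _ _ fun j _ => hp.monic j]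

private theorem deg_le (hp : PVec d p) (i : Dir m) :
    (p (dir i)).natDegree ≤ (∏ j, p j).natDegree := by
  rw [deg_sum (dir := dir) hp]
  exact (single_le_sum (f := fun i => (p (dir i)).natDegree) (fun _ _ => Nat.zero_le _)
    (mem_univ i)).trans (Nat.le_add_right _ _)

/-- The bound for the sum of the degrees. -/
private theorem deg_bound (hp : PVec d p) (hn : 1 ≤ (∏ j, p j).natDegree) :
    ∑ l, (d.ell l).natDegree + ∑ j ∈ offJ dir, (p j).natDegree +
        3 * ∑ i : Option (Fin m), (p (dir (some i))).natDegree ≤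
      (∑ l, (d.ell l).natDegree + 4) * (∏ j, p j).natDegree := by
  have h1 := deg_sum (dir := dir) hp
  rw [Fintype.sum_option] at h1
  set n := (∏ j, p j).natDegree
  set s0 := ∑ l, (d.ell l).natDegree
  have h2 : s0 ≤ s0 * n := Nat.le_mul_of_pos_right _ hn
  have h3 : (s0 + 4) * n = s0 * n + 4 * n := by ring
  rw [h3]
  omega

private theorem sign_eq (x : ZMod 2) : (-1 : ℝ) ^ x.val = if x = 0 then 1 else -1 := by
  have key : x = 0 ∨ x = 1 := by
    revert x
    decide
  rcases key with rfl | rfl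
  · simp
  · have : (1 : ZMod 2).val = 1 := rfl
    rw [this, pow_one, if_neg (by decide)]

end tools

section main

variable {k : Type} [Field k] [Finite k] {V1 : Type} [AddCommGroup V1] [Module (ZMod 2) V1]
  {d : TwData k V1} {G V Pl : Type} [Group G] [AddCommGroup V] [DistribMulAction G V] {S : Sys G V V1 Pl} {ch : k[X] → G → ZMod 2}
  {pl : k[X] → Pl}

/-- **Theorem I.** -/
theorem grid_thm (hS : S.Ok) (h : ChOk S ch d pl) {a C : ℕ}
    (hC : ChebOdd S.NN (fun P => S.sg (pl P)) (fun P => S.phi (pl P)) (Nat.card k) a C)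
    (m : ℕ) (hm : 1 ≤ m) : GridThm S ch d m := by
  classical
  intro R η hη
  set S0 := ∑ l, (d.ell l).natDegree with hS0
  obtain ⟨n1, hn1⟩ := card_XG_le h.two d
  have hq : 2 ≤ Nat.card k := Finite.one_lt_card
  set κ : ℝ := η / 2 ^ (m + 1) with hκ
  have hκ0 : 0 < κ := by positivity
  have := hS.fin1
  obtain ⟨n2, N, γ, δ, c, ε, hγ0, hδ0, hcN, hc, hδγ, hε1, hε2, hn2⟩ :=
    INum.grid_num (Nat.card V1) d.h a C ((2 ^ m * Nat.card V1 ^ 2 ^ m) ^ 2 ^ (m + 1)) (Nat.card k) S0 m R (2 ^ R) Nat.card_pos hq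
      (by positivity) κ η hκ0 hη
  refine ⟨max n1 n2, fun J _ p a' b' dir hp hn hJ hdeg hdist h4 hF ha hb hperp hsu => ?_⟩
  obtain ⟨su⟩ := hsu
  set n := (∏ j, p j).natDegree with hndef
  obtain ⟨hn0, hNS, hbig⟩ := hn2 n ((le_max_right _ _).trans hn)
  have hd : DegOk d p dir := ⟨hdist, fun i l => lt_of_le_of_lt
    (single_le_sum (f := fun l => (d.ell l).natDegree) (fun _ _ => Nat.zero_le _) (mem_univ l))
    (hNS.trans_le (hdeg i))⟩
  have hne : Nonempty J := ⟨dir none⟩
  have hco : ∀ x : ∀ i, XG d p dir i, CodeOk S ch d (rx d p dir x) :=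
    fun x => Code.codeOk hS h (pvec_rx hp hd x)
  obtain ⟨r, τ, hr, hτ, hσ, he, hbz, he', hY, hFab⟩ :=
    IT2.exists_twr h hp hd hS hco hm ha hb hperp su
  have hfI : ∀ D : ℕ, Finite (Irr k D) := fun D => (Q.irr_finite _).to_subtype
  let _ : ∀ i, Fintype (XG d p dir i) := fun i => Fintype.ofFinite _
  have hneX : ∀ i, Nonempty (XG d p dir i) := fun i => ⟨IT2.xp hp dir i⟩
  set t := Nat.card J - (m + 2) with ht
  have htlog : (t : ℝ) ≤ 2 * Real.log n := by
    refine le_trans ?_ hJ
    exact_mod_cast Nat.sub_le _ _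
  -- the left-hand side
  have hL : ∑ᶠ x : (i : Dir m) → Irr k (p (dir i)).natDegree,
        (if TypEq S ch d m (repl p dir fun i => (x i).1) p then
          (-1 : ℝ) ^ (FFJ S ch d (repl p dir fun i => (x i).1) m a' b').val else 0) =
      ∑ x ∈ univ with x ∈ τ.Y (gridG d p dir S ch pl) m,
        (if τ.Fab (gridG d p dir S ch pl) m x = 0 then (1 : ℝ) else -1) := by
    rw [finsum_grid (fun q => (-1 : ℝ) ^ (FFJ S ch d q m a' b').val)]
    refine sum_congr (filter_congr fun x _ => (hY x).symm) fun x hx => ?_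
    rw [sign_eq, ← hFab x (mem_filter.1 hx).2]
  rw [hL]
  -- the sizes
  set M : Dir m → ℝ := fun i => (Nat.card (Irr k (p (dir i)).natDegree) : ℝ) with hM
  set W : ℝ := 2 ^ (d.h + t) with hW
  have hW0 : 0 < W := by positivity
  have hup : ∀ i, (Fintype.card (XG d p dir i) : ℝ) ≤ 2 * (M i / W) := by
    intro i
    have h1 := hn1 m J _ p dir hp hd ((le_max_left _ _).trans hn) hJ i (hdeg i)
    rwa [Nat.card_eq_fintype_card] at h1
  have hD1 : ∀ i, 1 ≤ (p (dir i)).natDegree := fun i => by
    have := hdeg i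
    have h3 : N0 n = ⌊(Real.log n) ^ 3⌋₊ := rfl
    omega
  have hlow : ∀ i, (Nat.card k : ℝ) ^ (p (dir i)).natDegree / (2 * (p (dir i)).natDegree) ≤
      M i := fun i => card_Irr_lower h.two _ (hD1 i)
  have hM0 : ∀ i, 0 < M i := fun i => by
    refine lt_of_lt_of_le ?_ (hlow i)
    have h1 : (0 : ℝ) < (p (dir i)).natDegree := by exact_mod_cast hD1 i
    have h2 : (0 : ℝ) < Nat.card k := by exact_mod_cast (by omega : 0 < Nat.card k)
    positivity
  have hR : (∏ i, M i) / 2 ^ ((m + 2) * (d.h + t)) = ∏ i, (M i / W) := by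
    rw [prod_div_distrib, prod_const, card_univ, Fintype.card_option, Fintype.card_option,
      Fintype.card_fin, hW, ← pow_mul, mul_comm (m + 2)]
  rw [hR]
  have hcardX : (Fintype.card (∀ i, XG d p dir i) : ℝ) = ∏ i, (Fintype.card (XG d p dir i) : ℝ) := by
    rw [Fintype.card_pi]
    push_cast
    rfl
  have hMW : ∀ i, 0 ≤ M i / W := fun i => (div_pos (hM0 i) hW0).le
  have hcardle : (Fintype.card (∀ i, XG d p dir i) : ℝ) ≤ 2 ^ (m + 2) * ∏ i, (M i / W) := by
    rw [hcardX]
    calc ∏ i, (Fintype.card (XG d p dir i) : ℝ) ≤ ∏ i, (2 * (M i / W)) :=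
          prod_le_prod (fun _ _ => by positivity) fun i _ => hup i
      _ = 2 ^ (m + 2) * ∏ i, (M i / W) := by
          rw [prod_mul_distrib, prod_const, card_univ, Fintype.card_option, Fintype.card_option,
            Fintype.card_fin]
  by_cases hall : ∀ i, κ * (M i / W) ≤ (Fintype.card (XG d p dir i) : ℝ)
  · -- all classes are large
    have hb1 : ∀ i, 0 < (Fintype.card (XG d p dir i) : ℝ) ∧
        1 / (Fintype.card (XG d p dir i) : ℝ) ≤ ε ∧ ∀ rr : ℕ, rr ≤ (S0 + 4) * n →
          (C * ((2 : ℝ) ^ (d.h + t) * ((2 ^ m * Nat.card V1 ^ 2 ^ m) ^ 2 ^ (m + 1) : ℕ) * (rr + 1)) ^ a *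
            (Nat.card k : ℝ) ^ ((p (dir i)).natDegree / 2)) ^ 2 /
              (Fintype.card (XG d p dir i) : ℝ) ^ 2 ≤ ε := fun i =>
      hbig t htlog _ (hdeg i) (deg_le hp i) (M i) _ (hlow i) (hall i)
    set rr : ℕ := S0 + ∑ j ∈ offJ dir, (p j).natDegree +
      3 * ∑ i : Option (Fin m), (p (dir (some i))).natDegree with hrr
    have hrrn : rr ≤ (S0 + 4) * n := deg_bound hp hn0
    have hT : Fintype.card (Fin d.h ⊕ {j // j ∈ offJ dir}) = d.h + t := by
      rw [Fintype.card_sum, Fintype.card_fin, Fintype.card_coe, card_offJ]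
    let e := (Fintype.equivFinOfCardEq hT).symm
    have hend := grid_end' hS (gridG_ok h hp hd hS) hτ hm hσ hbz (by rw [he, he', h.e_eq]; exact su.pair)
      (2 ^ R) (by positivity) (fun x hx => by
        obtain ⟨g1, g2⟩ := IT2.sel_card h hp hd hS hco hx.1
        exact ⟨g1, g2.trans_le hF⟩) pl hC (fun i x => x.1.1) (fun i x => rfl)
      (fun i x P hP hP' hPx => h.pl_inj _ _ hP hP' x.1.2.1 x.1.2.2.1 hPx)
      (fun j => chiB d p dir ch (e j)) (fun j => by
        rcases e j with l | ⟨j', hj'⟩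
        · exact h.hom _ (d.ell_monic l).ne_zero
        · exact h.hom _ (hp.monic j').ne_zero)
      (fun j => ccB d p dir (p (dir none)) (e j)) (p (dir none)).natDegree h4
      ((Q.irr_finite (k := k) (p (dir none)).natDegree)) (fun P => by
        rw [mem_X h hp hd none P]
        constructor
        · rintro ⟨g1, g2, g3, g4⟩
          exact ⟨g1, g2, g3, fun j => g4 (e j)⟩
        · rintro ⟨g1, g2, g3, g4⟩
          refine ⟨g1, g2, g3, fun j => ?_⟩
          have := g4 (e.symm j)
          rwa [Equiv.apply_symm_apply] at this)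
      (B0 d p dir) (fun P hP hP' hor => by
        rw [mem_B0]
        rcases hor with (h1 | ⟨l, h1⟩ | ⟨j, hj, h1⟩) | ⟨j, h1⟩
        · exact absurd h1 (h.pl_inf P hP hP')
        · exact Or.inl ⟨l, (h.pl_inj _ _ hP hP' (d.ell_monic l) (d.ell_irr l) h1).symm⟩
        · exact Or.inr ⟨j, hj, (h.pl_inj _ _ hP hP' (hp.monic j) (hp.irr j) h1).symm⟩
        · rcases hej : e j with l | ⟨j', hj'⟩
          · rw [hej] at h1
            refine Or.inl ⟨l, ?_⟩
            by_contra hne
            exact h1 (h.sg_ne hP hP' (d.ell_monic l) (d.ell_irr l) fun hh => hne hh.symm)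
          · rw [hej] at h1
            refine Or.inr ⟨j', mem_offJ.1 hj', ?_⟩
            by_contra hne
            exact h1 (h.sg_ne hP hP' (hp.monic j') (hp.irr j') fun hh => hne hh.symm))
      (fun P hP => by
        rw [mem_B0] at hP
        rcases hP with ⟨l, rfl⟩ | ⟨j, hj, rfl⟩
        · exact (hd.ell none l).ne
        · exact fun hh => hj none (hd.dist none j hh).symm)
      (fun i x hh => by
        have h1 : x.1.1.natDegree = (p (dir (some i))).natDegree := x.1.2.2.2
        rw [h1] at hh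
        exact absurd (dir.injective (hd.dist none _ hh)) (by simp))
      rr (fun x y z => by
        have h1 : ∀ (i : Option (Fin m)) (x : XG d p dir (some i)),
            x.1.1.natDegree = (p (dir (some i))).natDegree := fun i x => x.1.2.2.2
        have h2 := sum_B0 (d := d) (dir := dir) hp
        have h3 : ∑ i : Option (Fin m), ((x i).1.1.natDegree + (y i).1.1.natDegree +
            (z i).1.1.natDegree) = 3 * ∑ i : Option (Fin m), (p (dir (some i))).natDegree := by
          rw [mul_sum]
          refine sum_congr rfl fun i _ => ?_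
          rw [h1, h1, h1]
          ring
        rw [hrr, h3]
        omega)
      γ hγ0 (by
        refine le_trans ?_ hε1
        refine add_le_add ?_ ?_
        · have h1 := (hb1 none).2.2 rr hrrn
          push_cast at h1
          exact h1
        · gcongr
          calc ∑ i : Option (Fin m), 1 / (Fintype.card (XG d p dir (some i)) : ℝ)
              ≤ ∑ i : Option (Fin m), ε := sum_le_sum fun i _ => (hb1 (some i)).2.1
            _ = (m + 1 : ℕ) * ε := by
                rw [sum_const, card_univ, Fintype.card_option, Fintype.card_fin, nsmul_eq_mul])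
      δ c hδ0 (hc r (by
        have h1 := IT2.supp_r_le hS su
        have h2 : 2 ^ su.r ≤ 2 ^ R := h1.trans hF
        have h3 : su.r ≤ R := (Nat.pow_le_pow_iff_right (by norm_num)).1 h2
        omega)) (by
        refine le_trans ?_ hε2
        calc ∑ i : Dir m, 1 / (Fintype.card (XG d p dir i) : ℝ)
            ≤ ∑ i : Dir m, ε := sum_le_sum fun i _ => (hb1 i).2.1
          _ = (m + 2 : ℕ) * ε := by
              rw [sum_const, card_univ, Fintype.card_option, Fintype.card_option,
                Fintype.card_fin, nsmul_eq_mul]) N hcN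
    refine hend.trans ?_
    have hP0 : 0 ≤ ∏ i, (M i / W) := prod_nonneg fun i _ => hMW i
    calc (δ + 2 ^ N * γ) * (Fintype.card (∀ i, XG d p dir i) : ℝ)
        ≤ (δ + 2 ^ N * γ) * (2 ^ (m + 2) * ∏ i, (M i / W)) := by gcongr
      _ = ((δ + 2 ^ N * γ) * 2 ^ (m + 2)) * ∏ i, (M i / W) := by ring
      _ ≤ η * ∏ i, (M i / W) := by gcongr
  · -- a small class
    push Not at hall
    obtain ⟨i0, hi0⟩ := hall
    calc |∑ x ∈ univ with x ∈ τ.Y (gridG d p dir S ch pl) m,
        (if τ.Fab (gridG d p dir S ch pl) m x = 0 then (1 : ℝ) else -1)|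
        ≤ ∑ x ∈ univ with x ∈ τ.Y (gridG d p dir S ch pl) m, (1 : ℝ) := by
          refine (abs_sum_le_sum_abs _ _).trans (sum_le_sum fun x _ => ?_)
          split_ifs <;> simp
      _ ≤ Fintype.card (∀ i, XG d p dir i) := by
          rw [sum_const, nsmul_eq_mul, mul_one]
          exact_mod_cast card_le_univ _
      _ = Fintype.card (XG d p dir i0) * ∏ i ∈ univ.erase i0, (Fintype.card (XG d p dir i) : ℝ) := by
          rw [hcardX]
          exact (mul_prod_erase univ (fun i => (Fintype.card (XG d p dir i) : ℝ))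
            (mem_univ i0)).symm
      _ ≤ κ * (M i0 / W) * ∏ i ∈ univ.erase i0, (2 * (M i / W)) := by
          refine mul_le_mul hi0.le (prod_le_prod (fun _ _ => by positivity) fun i _ => hup i)
            (by positivity) (by have := hMW i0; positivity)
      _ = η * ∏ i, (M i / W) := by
          rw [prod_mul_distrib, prod_const, card_erase_of_mem (mem_univ _), card_univ,
            Fintype.card_option, Fintype.card_option, Fintype.card_fin,
            ← mul_prod_erase univ (fun i => M i / W) (mem_univ i0), hκ]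
          have : m + 1 + 1 - 1 = m + 1 := by omega
          rw [this]
          field_simp

end main

end Pool.Agent.SmJ
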