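import Pool.Agent.Lib.SmJ.I.Code
import Pool.Agent.Lib.SmJ.G.LFactsOk

/-!
# SMITH: the facts needed by block L, from `Sys.Ok` and `ChOk`
-/

set_option autoImplicit false

open Polynomial

namespace Pool.Agent.SmJ

variable {k : Type} [Field k] {G V V1 Pl : Type} [Group G] [AddCommGroup V] [DistribMulAction G V]
  [AddCommGroup V1] [Module (ZMod 2) V1]
variable {S : Sys G V V1 Pl} {ch : k[X] → G → ZMod 2} {d : TwData k V1} {pl : k[X] → Pl}
  {J : Type} [Fintype J] {p : J → k[X]}

theorem lfacts_of [Fintype V1] (h : S.Ok) (hc : ChOk S ch d pl) (hp : PVec d p) [Nonempty J] :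
    LFacts S ch d p := lfacts h (Code.codeOk h hc hp) (Code.FJ_sub_SelpJ h hc hp)

end Pool.Agent.SmJ
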