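import Pool.Agent.Lib.SmJ.I.Tools

/-!
SMITH, block I, section I1 (frame): values of the twist and of the codes at the places, the frame.
-/

set_option autoImplicit false

open Finset

namespace Pool.Agent.SmJ.Grid

open Pool.Agent.SmJ.IT

variable {G V V1 Pl : Type*} [Group G] [AddCommGroup V] [DistribMulAction G V]
  [AddCommGroup V1] [Module (ZMod 2) V1] {S : Sys G V V1 Pl}
variable {ι : Type*} [Fintype ι] {X : ι → Type*} {Γ : Grid S X}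

theorem chi_hom (hS : S.Ok) (hΓ : Γ.Ok) (x : ∀ i, X i) : S.HomG (Γ.chi x) :=
  homG_add hS hΓ.chi0_hom (homG_sum hS univ (fun i => Γ.th i (x i)) fun i _ => hΓ.th_hom i (x i))

theorem ch_hom (hS : S.Ok) (hΓ : Γ.Ok) {c : GCode G V1 ι} (hc : Γ.IsC c) (x : ∀ i, X i) :
    S.HomG (Γ.ch c x) :=
  homG_add hS hc.1 (homG_sum hS univ (fun i s => Γ.th i (x i) s • c.2 i)
    fun i _ => homG_smul (hΓ.th_hom i (x i)) (c.2 i))

omit [Fintype ι] in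
/-- The character `th l a` is not ramified at the place of another point. -/
theorem th_sg (hΓ : Γ.Ok) {l m : ι} {a : X l} {p : X m} (h : Γ.pl m p ≠ Γ.pl l a) :
    Γ.th l a (S.sg (Γ.pl m p)) = 0 :=
  hΓ.th_unr l a _ (hΓ.pl_bad m p) h

omit [Fintype ι] in
theorem th_sg_dir (hΓ : Γ.Ok) {l m : ι} (hlm : l ≠ m) (a : X l) (p : X m) :
    Γ.th l a (S.sg (Γ.pl m p)) = 0 :=
  th_sg hΓ fun h => hlm (hΓ.pl_dir m p l a h).symm

theorem chi_sg_pl (hΓ : Γ.Ok) (x : ∀ i, X i) (i : ι) : Γ.chi x (S.sg (Γ.pl i (x i))) = 1 := by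
  classical
  unfold chi
  rw [hΓ.chi0_unr _ (hΓ.pl_bad i (x i)), zero_add, sum_eq_single i, hΓ.th_self]
  · intro l _ hl
    exact th_sg_dir hΓ hl _ _
  · intro h
    exact absurd (mem_univ i) h

theorem chi_sg_off (hΓ : Γ.Ok) (x : ∀ i, X i) {v : Pl} (hv : v ∉ Γ.bad)
    (h : ∀ i, v ≠ Γ.pl i (x i)) : Γ.chi x (S.sg v) = 0 := by
  unfold chi
  rw [hΓ.chi0_unr _ hv, zero_add]
  exact sum_eq_zero fun i _ => hΓ.th_unr i (x i) v hv (h i)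

theorem ch_sg_pl (hΓ : Γ.Ok) {c : GCode G V1 ι} (hc : Γ.IsC c) (x : ∀ i, X i) (i : ι) :
    Γ.ch c x (S.sg (Γ.pl i (x i))) = c.2 i := by
  classical
  unfold ch
  rw [hc.2 _ (hΓ.pl_bad i (x i)), zero_add, sum_eq_single i, hΓ.th_self, one_smul]
  · intro l _ hl
    rw [th_sg_dir hΓ hl, zero_smul]
  · intro h
    exact absurd (mem_univ i) h

theorem ch_sg_off (hΓ : Γ.Ok) {c : GCode G V1 ι} (hc : Γ.IsC c) (x : ∀ i, X i) {v : Pl}
    (hv : v ∉ Γ.bad) (h : ∀ i, v ≠ Γ.pl i (x i)) : Γ.ch c x (S.sg v) = 0 := by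
  unfold ch
  rw [hc.2 _ hv, zero_add]
  exact sum_eq_zero fun i _ => by rw [hΓ.th_unr i (x i) v hv (h i), zero_smul]

theorem chi_bad (hΓ : Γ.Ok) (x y : ∀ i, X i) {v : Pl} (hv : v ∈ Γ.bad) :
    ∀ s ∈ S.D v, Γ.chi x s = Γ.chi y s := fun s hs => by
  unfold chi
  rw [sum_congr rfl fun i _ => hΓ.th_bad v hv i (x i) (y i) s hs]

theorem ch_bad (hΓ : Γ.Ok) (c : GCode G V1 ι) (x y : ∀ i, X i) {v : Pl} (hv : v ∈ Γ.bad) :
    ∀ s ∈ S.D v, Γ.ch c x s = Γ.ch c y s := fun s hs => by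
  unfold ch
  rw [sum_congr rfl fun i _ => by rw [hΓ.th_bad v hv i (x i) (y i) s hs]]

omit [Fintype ι] in
/-- Two characters of the direction `l` with the same symbol agree on the decomposition group. -/
theorem th_D (hS : S.Ok) (hΓ : Γ.Ok) {l m : ι} (hlm : l ≠ m) (a b : X l) (p : X m)
    (h : Γ.th l a (S.phi (Γ.pl m p)) = Γ.th l b (S.phi (Γ.pl m p))) :
    ∀ s ∈ S.D (Γ.pl m p), Γ.th l a s = Γ.th l b s := by
  intro s hs
  have h1 := homG_D hS (homG_sub hS (hΓ.th_hom l a) (hΓ.th_hom l b)) (Γ.pl m p)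
    (by rw [th_sg_dir hΓ hlm, th_sg_dir hΓ hlm, sub_zero]) (by rw [h, sub_self]) s hs
  exact sub_eq_zero.mp h1

/-- At the place of `x m` the twists of all the points of `X^*` with the same coordinate agree. -/
theorem chi_D (hS : S.Ok) (hΓ : Γ.Ok) {x y : ∀ i, X i} (hx : x ∈ Γ.Xs) (hy : y ∈ Γ.Xs) {m : ι}
    (hm : x m = y m) : ∀ s ∈ S.D (Γ.pl m (x m)), Γ.chi x s = Γ.chi y s := by
  intro s hs
  unfold chi
  congr 1
  refine sum_congr rfl fun l _ => ?_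
  by_cases hlm : l = m
  · subst hlm
    rw [hm]
  · refine th_D hS hΓ hlm _ _ _ ?_ s hs
    rw [hx l m hlm, hm, hy l m hlm]

theorem ch_D (hS : S.Ok) (hΓ : Γ.Ok) (c : GCode G V1 ι) {x y : ∀ i, X i} (hx : x ∈ Γ.Xs)
    (hy : y ∈ Γ.Xs) {m : ι} (hm : x m = y m) :
    ∀ s ∈ S.D (Γ.pl m (x m)), Γ.ch c x s = Γ.ch c y s := by
  intro s hs
  unfold ch
  congr 1
  refine sum_congr rfl fun l _ => ?_
  by_cases hlm : l = m
  · subst hlm
    rw [hm]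
  · rw [th_D hS hΓ hlm (x l) (y l) (x m) ?_ s hs]
    rw [hx l m hlm, hm, hy l m hlm]

omit [Fintype ι] in
/-- The homomorphisms to `V1` unramified outside of the bad places agree at the Frobenius elements. -/
theorem unif_V1 (hS : S.Ok) (hΓ : Γ.Ok) {c : G → V1} (hc : S.HomG c)
    (h : ∀ v, v ∉ Γ.bad → c (S.sg v) = 0) (i : ι) (x y : X i) :
    c (S.phi (Γ.pl i x)) = c (S.phi (Γ.pl i y)) := by
  rw [← sub_eq_zero]
  refine hS.e_nondeg _ fun w => ?_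
  rw [map_sub, LinearMap.sub_apply, sub_eq_zero]
  exact hΓ.unif _ (homG_e hc w) (fun v hv => by
    rw [h v hv, map_zero, LinearMap.zero_apply]) i x y

/-- The local condition of the code `c` at the place of `x i`, made explicit; it does not depend on
the point `x` of `X^*`. -/
theorem cond_pl (hS : S.Ok) (hΓ : Γ.Ok) {c : GCode G V1 ι} (hc : Γ.IsC c) {x y : ∀ i, X i}
    (hx : x ∈ Γ.Xs) (hy : y ∈ Γ.Xs) (i : ι)
    (h : S.loc (Γ.pl i (x i)) (Γ.ch c x) ∈ S.Wl (Γ.chi x) (Γ.pl i (x i))) :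
    S.loc (Γ.pl i (y i)) (Γ.ch c y) ∈ S.Wl (Γ.chi y) (Γ.pl i (y i)) := by
  classical
  obtain ⟨κ, hκ, hκ1, -, hκ2⟩ := exists_kap0 hS (c.2 i)
  have hgx := hΓ.bad_good _ (hΓ.pl_bad i (x i))
  have hgy := hΓ.bad_good _ (hΓ.pl_bad i (y i))
  have hloc : ∀ z : ∀ i, X i, S.loc (Γ.pl i (z i)) (Γ.ch c z) =
      (c.2 i, Γ.ch c z (S.phi (Γ.pl i (z i)))) := fun z => by
    unfold Sys.loc
    rw [ch_sg_pl hΓ hc]
  rw [hloc, hκ2 _ _ hgx (chi_sg_pl hΓ x i)] at h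
  rw [hloc, hκ2 _ _ hgy (chi_sg_pl hΓ y i)]
  have e1 : ∀ z ∈ Γ.Xs, Γ.ch c z (S.phi (Γ.pl i (z i))) = c.1 (S.phi (Γ.pl i (z i))) +
      ((∑ l ∈ univ.erase i, Γ.sm l i • c.2 l) +
        Γ.th i (z i) (S.phi (Γ.pl i (z i))) • c.2 i) := by
    intro z hz
    unfold ch
    rw [← sum_erase_add univ _ (mem_univ i)]
    congr 2
    exact sum_congr rfl fun l hl => by rw [hz l i (ne_of_mem_erase hl)]
  have e2 : ∀ z ∈ Γ.Xs, Γ.chi z (S.phi (Γ.pl i (z i))) = Γ.chi0 (S.phi (Γ.pl i (z i))) +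
      ((∑ l ∈ univ.erase i, Γ.sm l i) + Γ.th i (z i) (S.phi (Γ.pl i (z i)))) := by
    intro z hz
    unfold chi
    rw [← sum_erase_add univ _ (mem_univ i)]
    congr 2
    exact sum_congr rfl fun l hl => by rw [hz l i (ne_of_mem_erase hl)]
  rw [e1 x hx, e2 x hx] at h
  rw [e1 y hy, e2 y hy]
  have u1 := unif_V1 hS hΓ hc.1 hc.2 i (x i) (y i)
  have u2 := unif_V1 hS hΓ hκ (fun v hv => hκ1 v (hΓ.bad_good v hv)) i (x i) (y i)
  have u3 := hΓ.unif _ hΓ.chi0_hom hΓ.chi0_unr i (x i) (y i)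
  rw [u1, u2, u3] at h
  have h' : c.1 (S.phi (Γ.pl i (y i))) + ∑ l ∈ univ.erase i, Γ.sm l i • c.2 l =
      κ (S.phi (Γ.pl i (y i))) + (Γ.chi0 (S.phi (Γ.pl i (y i))) +
        ∑ l ∈ univ.erase i, Γ.sm l i) • c.2 i := by
    have := congrArg (fun a => a - Γ.th i (x i) (S.phi (Γ.pl i (x i))) • c.2 i) h
    simp only [add_smul] at this ⊢
    rw [← sub_eq_zero] at this ⊢
    rw [← this]
    abel
  rw [← add_assoc, h']
  simp only [add_smul]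
  abel

/-! ### Codes and homomorphisms -/

theorem code_exists (hS : S.Ok) (hΓ : Γ.Ok) (x : ∀ i, X i) {b : G → V1} (hb : S.HomG b)
    (h : ∀ v, v ∉ Γ.bad → (∀ i, v ≠ Γ.pl i (x i)) → b (S.sg v) = 0) :
    ∃ c, Γ.IsC c ∧ Γ.ch c x = b := by
  classical
  refine ⟨(fun s => b s - ∑ i, Γ.th i (x i) s • b (S.sg (Γ.pl i (x i))),
    fun i => b (S.sg (Γ.pl i (x i)))), ⟨?_, ?_⟩, ?_⟩
  · exact homG_sub hS hb (homG_sum hS univ (fun i s => Γ.th i (x i) s • b (S.sg (Γ.pl i (x i))))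
      fun i _ => homG_smul (hΓ.th_hom i (x i)) _)
  · intro v hv
    change b (S.sg v) - ∑ i, Γ.th i (x i) (S.sg v) • b (S.sg (Γ.pl i (x i))) = 0
    by_cases hvi : ∃ i, v = Γ.pl i (x i)
    · obtain ⟨i, rfl⟩ := hvi
      rw [sum_eq_single i, hΓ.th_self, one_smul, sub_self]
      · intro l _ hl
        rw [th_sg_dir hΓ hl, zero_smul]
      · intro h
        exact absurd (mem_univ i) h
    · have hvi' : ∀ i, v ≠ Γ.pl i (x i) := fun i hi => hvi ⟨i, hi⟩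
      rw [h v hv hvi', zero_sub, neg_eq_zero]
      exact sum_eq_zero fun i _ => by rw [hΓ.th_unr i (x i) v hv (hvi' i), zero_smul]
  · funext s
    change b s - ∑ i, Γ.th i (x i) s • b (S.sg (Γ.pl i (x i))) +
      ∑ i, Γ.th i (x i) s • b (S.sg (Γ.pl i (x i))) = b s
    rw [sub_add_cancel]

theorem ch_inj (hΓ : Γ.Ok) (x : ∀ i, X i) {c d : GCode G V1 ι} (hc : Γ.IsC c) (hd : Γ.IsC d)
    (h : Γ.ch c x = Γ.ch d x) : c = d := by
  have h2 : c.2 = d.2 := by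
    funext i
    rw [← ch_sg_pl hΓ hc x i, ← ch_sg_pl hΓ hd x i, h]
  refine Prod.ext ?_ h2
  funext s
  have h3 := congrFun h s
  unfold ch at h3
  rw [h2] at h3
  exact add_right_cancel h3

/-- The frame theorem: it is enough to check one point of `X^*`. -/
theorem sel1_transfer (hS : S.Ok) (hΓ : Γ.Ok) {c : GCode G V1 ι} (hc : Γ.IsC c) {x y : ∀ i, X i}
    (hx : x ∈ Γ.Xs) (hy : y ∈ Γ.Xs) (h : S.IsSel1 (Γ.chi x) (Γ.ch c x)) :
    S.IsSel1 (Γ.chi y) (Γ.ch c y) := by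
  refine ⟨ch_hom hS hΓ hc y, fun v => ?_⟩
  by_cases hv : v ∈ Γ.bad
  · have h1 := h.2 v
    rw [wl_congr_iff hS (chi_bad hΓ x y hv)] at h1
    have h2 : S.loc v (Γ.ch c y) = S.loc v (Γ.ch c x) := by
      unfold Sys.loc
      rw [ch_bad hΓ c x y hv _ (hS.sg_mem v), ch_bad hΓ c x y hv _ (hS.phi_mem v)]
    rwa [h2]
  · by_cases hvi : ∃ i, v = Γ.pl i (y i)
    · obtain ⟨i, rfl⟩ := hvi
      exact cond_pl hS hΓ hc hx hy i (h.2 _)
    · have hvi' : ∀ i, v ≠ Γ.pl i (y i) := fun i hi => hvi ⟨i, hi⟩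
      rw [Sys.mem_Wl_good hS (chi_hom hS hΓ y) (hΓ.bad_good v hv) (chi_sg_off hΓ y hv hvi')]
      exact ch_sg_off hΓ hc y hv hvi'

theorem mem_FF (hS : S.Ok) (hΓ : Γ.Ok) {x : ∀ i, X i} (hx : x ∈ Γ.Xs) (c : GCode G V1 ι) :
    c ∈ Γ.FF ↔ Γ.IsC c ∧ S.IsSel1 (Γ.chi x) (Γ.ch c x) :=
  ⟨fun h => ⟨h.1, h.2 x hx⟩, fun h => ⟨h.1, fun _ hy => sel1_transfer hS hΓ h.1 hx hy h.2⟩⟩

/-- The elements of the Selmer group are unramified outside of the bad places and of the places of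
the point. -/
theorem sel1_unr (hS : S.Ok) (hΓ : Γ.Ok) {x : ∀ i, X i} {b : G → V1}
    (hb : S.IsSel1 (Γ.chi x) b) : ∀ v, v ∉ Γ.bad → (∀ i, v ≠ Γ.pl i (x i)) → b (S.sg v) = 0 := by
  intro v hv hvi
  have h1 := hb.2 v
  rw [Sys.mem_Wl_good hS (chi_hom hS hΓ x) (hΓ.bad_good v hv) (chi_sg_off hΓ x hv hvi)] at h1
  exact h1

/-- `c ↦ c (x)` is a bijection from the frame to the Selmer group of the point `x` of `X^*`. -/
theorem bijOn_ch (hS : S.Ok) (hΓ : Γ.Ok) {x : ∀ i, X i} (hx : x ∈ Γ.Xs) :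
    Set.BijOn (fun c => Γ.ch c x) Γ.FF {b | S.IsSel1 (Γ.chi x) b} := by
  refine ⟨fun c hc => hc.2 x hx, fun c hc d hd h => ch_inj hΓ x hc.1 hd.1 h, fun b hb => ?_⟩
  obtain ⟨c, hc, hcb⟩ := code_exists hS hΓ x hb.1 (sel1_unr hS hΓ hb)
  refine ⟨c, (mem_FF hS hΓ hx c).2 ⟨hc, ?_⟩, hcb⟩
  rw [hcb]
  exact hb

theorem ncard_FF (hS : S.Ok) (hΓ : Γ.Ok) {x : ∀ i, X i} (hx : x ∈ Γ.Xs) :
    Set.ncard {b | S.IsSel1 (Γ.chi x) b} = Set.ncard Γ.FF := by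
  rw [← (bijOn_ch hS hΓ hx).image_eq, (bijOn_ch hS hΓ hx).injOn.ncard_image]

end Pool.Agent.SmJ.Grid
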