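import Pool.Agent.Lib.SmJ.I.GridDefs
import Pool.Agent.Lib.SmJ.I.ChOk
import Pool.Agent.Lib.SmJ.I.Frame

/-!
Project SMITH over `F_q(t)` (MP_48b749_nt), block I (I0, I1): the grid `gridG` satisfies the
hypotheses `Grid.Ok`; its points with the prescribed symbols and its codes.
-/

set_option autoImplicit false

open Polynomial Finset

namespace Pool.Agent.SmJ

open Pool.Agent.Sm (leg Irr Dir repl repl_dir repl_off N0)

variable {k : Type} [Field k] {V1 : Type} [AddCommGroup V1] [Module (ZMod 2) V1]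
  {d : TwData k V1} {J : Type} [Fintype J] {m : ℕ} {p : J → k[X]}
  {dir : Dir m ↪ J}
variable {G V Pl : Type} [Group G] [AddCommGroup V] [DistribMulAction G V]
variable {S : Sys G V V1 Pl} {ch : k[X] → G → ZMod 2} {pl : k[X] → Pl}

private theorem GridOk_eq_of_add {a b : ZMod 2} (h : a + b = 0) : a = b := by
  revert a b
  decide

private theorem GridOk_add_self (a : ZMod 2) : a + a = 0 := by
  revert a
  decide

omit [Fintype J] in
theorem deg_rx (x : ∀ i, XG d p dir i) (j : J) :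
    (rx d p dir x j).natDegree = (p j).natDegree := by
  by_cases h : ∃ i, dir i = j
  · obtain ⟨i, rfl⟩ := h
    rw [rx_dir]
    exact (x i).1.2.2.2
  · push Not at h
    rw [rx_off x h]

omit [Fintype J] in
theorem pvec_rx (hp : PVec d p) (hd : DegOk d p dir) (x : ∀ i, XG d p dir i) :
    PVec d (rx d p dir x) where
  monic j := by
    by_cases h : ∃ i, dir i = j
    · obtain ⟨i, rfl⟩ := h
      rw [rx_dir]
      exact (x i).1.2.1
    · push Not at h
      rw [rx_off x h]
      exact hp.monic j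
  irr j := by
    by_cases h : ∃ i, dir i = j
    · obtain ⟨i, rfl⟩ := h
      rw [rx_dir]
      exact (x i).1.2.2.1
    · push Not at h
      rw [rx_off x h]
      exact hp.irr j
  inj j j' hjj := by
    have hdeg : (p j).natDegree = (p j').natDegree := by
      rw [← deg_rx x j, ← deg_rx x j', hjj]
    by_cases h : ∃ i, dir i = j
    · obtain ⟨i, rfl⟩ := h
      exact (hd.dist i j' hdeg.symm).symm
    · by_cases h' : ∃ i, dir i = j'
      · obtain ⟨i, rfl⟩ := h'
        exact hd.dist i j hdeg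
      · push Not at h h'
        rw [rx_off x h, rx_off x h'] at hjj
        exact hp.inj hjj
  ne j l := by
    by_cases h : ∃ i, dir i = j
    · obtain ⟨i, rfl⟩ := h
      intro hh
      have h1 := hd.ell i l
      rw [← hh, deg_rx] at h1
      exact lt_irrefl _ h1
    · push Not at h
      rw [rx_off x h]
      exact hp.ne j l

section

variable [Finite k]

/-- Primes of the same degree with the same symbols have the same reciprocal symbols. -/
theorem leg_symm_eq (h2 : (2 : k) ≠ 0) {P P' Q : k[X]} (hP : P.Monic) (hP' : Irreducible P)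
    (hR : P'.Monic) (hR' : Irreducible P') (hQ : Q.Monic) (hQ' : Irreducible Q) (hne : P ≠ Q)
    (hne' : P' ≠ Q) (hdeg : P.natDegree = P'.natDegree) :
    leg P Q = leg P' Q ↔ leg Q P = leg Q P' := by
  have e1 := SmF.leg_recip h2 hP' hP hQ' hQ hne
  have e2 := SmF.leg_recip h2 hR' hR hQ' hQ hne'
  rw [hdeg] at e1
  rw [← e2] at e1
  have key : ∀ a b c d : ZMod 2, a + b = c + d → (a = c ↔ b = d) := by decide
  exact key _ _ _ _ e1

variable (h : ChOk S ch d pl) (hp : PVec d p) (hd : DegOk d p dir)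

include h hd in
omit [Fintype J] [Finite k] in
theorem x_ne_ell (i : Dir m) (x : XG d p dir i) (l : Fin d.h) : x.1.1 ≠ d.ell l := by
  intro hh
  have h1 := hd.ell i l
  rw [← hh, x.1.2.2.2] at h1
  exact lt_irrefl _ h1

include hd in
omit [Fintype J] [Finite k] in
theorem x_ne_off (i : Dir m) (x : XG d p dir i) {j : J} (hj : ∀ i, dir i ≠ j) :
    x.1.1 ≠ p j := by
  intro hh
  refine hj i (hd.dist i j ?_).symm
  rw [← hh, x.1.2.2.2]

include hd in
omit [Fintype J] [Finite k] in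
theorem x_ne_x {i i' : Dir m} (hii : i ≠ i') (x : XG d p dir i) (y : XG d p dir i') :
    x.1.1 ≠ y.1.1 := by
  intro hh
  refine hii (dir.injective (hd.dist i' (dir i) ?_))
  rw [← x.1.2.2.2, ← y.1.2.2.2, hh]

include h in
omit [Finite k] in
/-- A place which is not bad is the place of a prime different from the bad ones. -/
theorem not_bad {v : Pl} (hv : v ∉ (gridG d p dir S ch pl).bad) :
    ∃ P : k[X], P.Monic ∧ Irreducible P ∧ v = pl P ∧ (∀ l, P ≠ d.ell l) ∧
      ∀ j, (∀ i, dir i ≠ j) → P ≠ p j := by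
  rcases h.pl_cases v with rfl | ⟨P, hP, hP', rfl⟩
  · exact absurd (Or.inl rfl) hv
  · exact ⟨P, hP, hP', rfl, fun l hl => hv (Or.inr (Or.inl ⟨l, by rw [hl]⟩)),
      fun j hj hj' => hv (Or.inr (Or.inr ⟨j, hj, by rw [hj']⟩))⟩

include h hp in
open Classical in
omit [Finite k] in
/-- The expansion of a character unramified outside the bad places. -/
theorem bad_expand {c : G → ZMod 2} (hc : S.HomG c)
    (hun : ∀ v, v ∉ (gridG d p dir S ch pl).bad → c (S.sg v) = 0) :
    ∃ ε : ZMod 2, ∀ s, c s = ε * ch (C d.u) s + ∑ l, c (S.sg (pl (d.ell l))) * ch (d.ell l) s +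
      ∑ j ∈ offJ dir, c (S.sg (pl (p j))) * ch (p j) s := by
  obtain ⟨ε, hε⟩ := h.unr_expand hc (univ.image d.ell ∪ (offJ dir).image p) (by
    intro P hP
    rw [mem_union, mem_image, mem_image] at hP
    rcases hP with ⟨l, -, rfl⟩ | ⟨j, -, rfl⟩
    · exact ⟨d.ell_monic l, d.ell_irr l⟩
    · exact ⟨hp.monic j, hp.irr j⟩) (by
    intro P hP hP' hPQ
    apply hun
    rintro (h1 | ⟨l, h1⟩ | ⟨j, hj, h1⟩)
    · exact h.pl_inf P hP hP' h1
    · apply hPQ
      rw [h.pl_inj P _ hP hP' (d.ell_monic l) (d.ell_irr l) h1]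
      exact mem_union_left _ (mem_image_of_mem _ (mem_univ l))
    · apply hPQ
      rw [h.pl_inj P _ hP hP' (hp.monic j) (hp.irr j) h1]
      exact mem_union_right _ (mem_image_of_mem _ (mem_offJ.mpr hj)))
  refine ⟨ε, fun s => ?_⟩
  rw [hε s, sum_union, sum_image fun a _ b _ hab => d.ell_inj hab,
    sum_image fun a _ b _ hab => hp.inj hab, add_assoc]
  rw [Finset.disjoint_left]
  intro P hP hP'
  rw [mem_image] at hP hP'
  obtain ⟨l, -, rfl⟩ := hP
  obtain ⟨j, -, h1⟩ := hP'
  exact hp.ne j l h1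

include h hp hd in
/-- The grid satisfies the hypotheses. -/
theorem gridG_ok (hS : S.Ok) : (gridG d p dir S ch pl).Ok where
  bad_good v hv := by
    obtain ⟨P, hP, hP', rfl, h1, -⟩ := not_bad h hv
    exact (h.good P hP hP').mpr h1
  pl_bad i x := by
    rintro (h1 | ⟨l, h1⟩ | ⟨j, hj, h1⟩)
    · exact h.pl_inf _ x.1.2.1 x.1.2.2.1 h1
    · exact x_ne_ell h hd i x l
        (h.pl_inj _ _ x.1.2.1 x.1.2.2.1 (d.ell_monic l) (d.ell_irr l) h1)
    · exact x_ne_off hd i x hj (h.pl_inj _ _ x.1.2.1 x.1.2.2.1 (hp.monic j) (hp.irr j) h1)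
  pl_dir i x j y hxy := by
    by_contra hij
    exact x_ne_x hd hij x y (h.pl_inj _ _ x.1.2.1 x.1.2.2.1 y.1.2.1 y.1.2.2.1 hxy)
  pl_inj i x y hxy := by
    apply Subtype.ext
    apply Subtype.ext
    exact h.pl_inj _ _ x.1.2.1 x.1.2.2.1 y.1.2.1 y.1.2.2.1 hxy
  th_hom i x := h.hom _ x.1.2.1.ne_zero
  th_self i x := h.sg_self _ x.1.2.1 x.1.2.2.1
  th_unr i x v hv hvx := by
    obtain ⟨P, hP, hP', rfl, -, -⟩ := not_bad h hv
    exact h.sg_ne hP hP' x.1.2.1 x.1.2.2.1 fun hh => hvx (by rw [hh]; rfl)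
  th_bad v hv i x y s hs := by
    have hdeg : x.1.1.natDegree = y.1.1.natDegree := by rw [x.1.2.2.2, y.1.2.2.2]
    have key : ch x.1.1 (S.sg v) = ch y.1.1 (S.sg v) ∧
        ch x.1.1 (S.phi v) = ch y.1.1 (S.phi v) := by
      rcases hv with rfl | ⟨l, rfl⟩ | ⟨j, hj, rfl⟩
      · exact ⟨h.inf_sg _ _ x.1.2.1 y.1.2.1 hdeg, h.inf_phi _ _ x.1.2.1 y.1.2.1 hdeg⟩
      · have n1 := x_ne_ell h hd i x l
        have n2 := x_ne_ell h hd i y l
        refine ⟨?_, ?_⟩
        · rw [h.sg_ne (d.ell_monic l) (d.ell_irr l) x.1.2.1 x.1.2.2.1 n1.symm,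
            h.sg_ne (d.ell_monic l) (d.ell_irr l) y.1.2.1 y.1.2.2.1 n2.symm]
        · rw [h.ph _ _ (d.ell_monic l) (d.ell_irr l) (SmF.not_dvd_of_ne (d.ell_irr l)
              (d.ell_monic l) x.1.2.2.1 x.1.2.1 n1.symm),
            h.ph _ _ (d.ell_monic l) (d.ell_irr l) (SmF.not_dvd_of_ne (d.ell_irr l)
              (d.ell_monic l) y.1.2.2.1 y.1.2.1 n2.symm)]
          rw [← leg_symm_eq h.two x.1.2.1 x.1.2.2.1 y.1.2.1 y.1.2.2.1 (d.ell_monic l)
            (d.ell_irr l) n1 n2 hdeg, x.2.1 l, y.2.1 l]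
      · have n1 := x_ne_off hd i x hj
        have n2 := x_ne_off hd i y hj
        refine ⟨?_, ?_⟩
        · rw [h.sg_ne (hp.monic j) (hp.irr j) x.1.2.1 x.1.2.2.1 n1.symm,
            h.sg_ne (hp.monic j) (hp.irr j) y.1.2.1 y.1.2.2.1 n2.symm]
        · rw [h.ph _ _ (hp.monic j) (hp.irr j) (SmF.not_dvd_of_ne (hp.irr j)
              (hp.monic j) x.1.2.2.1 x.1.2.1 n1.symm),
            h.ph _ _ (hp.monic j) (hp.irr j) (SmF.not_dvd_of_ne (hp.irr j)
              (hp.monic j) y.1.2.2.1 y.1.2.1 n2.symm)]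
          rw [← leg_symm_eq h.two x.1.2.1 x.1.2.2.1 y.1.2.1 y.1.2.2.1 (hp.monic j)
            (hp.irr j) n1 n2 hdeg, x.2.2 j hj, y.2.2 j hj]
    have h1 := IT.homG_D hS (IT.homG_add hS (h.hom _ x.1.2.1.ne_zero)
      (h.hom _ y.1.2.1.ne_zero)) v
      (by rw [key.1]; exact GridOk_add_self _) (by rw [key.2]; exact GridOk_add_self _) s hs
    exact GridOk_eq_of_add h1
  chi0_hom := IT.homG_sum hS _ _ fun j _ => h.hom _ (hp.monic j).ne_zero
  chi0_unr v hv := by
    obtain ⟨P, hP, hP', rfl, -, h2⟩ := not_bad h hv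
    exact sum_eq_zero fun j hj => h.sg_ne hP hP' (hp.monic j) (hp.irr j) (h2 j (mem_offJ.mp hj))
  unif c hc hun i x y := by
    obtain ⟨ε, hε⟩ := bad_expand h hp hc hun
    have hdeg : x.1.1.natDegree = y.1.1.natDegree := by rw [x.1.2.2.2, y.1.2.2.2]
    have e0 : ∀ z : XG d p dir i, ch (C d.u) (S.phi (pl z.1.1)) =
        (p (dir i)).natDegree * SmF.sq2 d.u := by
      intro z
      rw [h.ph _ _ z.1.2.1 z.1.2.2.1 (SmF.not_dvd_C z.1.2.2.1 ChOk.u_ne_zero),
        SmF.leg_const h.two z.1.2.2.1 z.1.2.1 ChOk.u_ne_zero, z.1.2.2.2]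
    have e1 : ∀ (z : XG d p dir i) (l : Fin d.h), ch (d.ell l) (S.phi (pl z.1.1)) =
        leg (p (dir i)) (d.ell l) := by
      intro z l
      rw [h.ph _ _ z.1.2.1 z.1.2.2.1 (SmF.not_dvd_of_ne z.1.2.2.1 z.1.2.1 (d.ell_irr l)
        (d.ell_monic l) (x_ne_ell h hd i z l)), z.2.1 l]
    have e2 : ∀ (z : XG d p dir i), ∀ j ∈ offJ dir, ch (p j) (S.phi (pl z.1.1)) =
        leg (p (dir i)) (p j) := by
      intro z j hj
      rw [h.ph _ _ z.1.2.1 z.1.2.2.1 (SmF.not_dvd_of_ne z.1.2.2.1 z.1.2.1 (hp.irr j)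
        (hp.monic j) (x_ne_off hd i z (mem_offJ.mp hj))), z.2.2 j (mem_offJ.mp hj)]
    have e3 : ∀ z : XG d p dir i, c (S.phi (pl z.1.1)) =
        ε * ((p (dir i)).natDegree * SmF.sq2 d.u) +
        ∑ l, c (S.sg (pl (d.ell l))) * leg (p (dir i)) (d.ell l) +
        ∑ j ∈ offJ dir, c (S.sg (pl (p j))) * leg (p (dir i)) (p j) := by
      intro z
      rw [hε, e0 z]
      congr 1
      · congr 1
        exact sum_congr rfl fun l _ => by rw [e1 z l]
      · exact sum_congr rfl fun j hj => by rw [e2 z j hj]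
    change c (S.phi (pl x.1.1)) = c (S.phi (pl y.1.1))
    rw [e3 x, e3 y]

include h hp hd in
/-- The points with the prescribed symbols. -/
theorem mem_Xs (x : ∀ i, XG d p dir i) :
    x ∈ (gridG d p dir S ch pl).Xs ↔ SymEq d (rx d p dir x) p := by
  have e : ∀ i j, i ≠ j → ch (x i).1.1 (S.phi (pl (x j).1.1)) = leg (x j).1.1 (x i).1.1 :=
    fun i j hij => h.ph _ _ (x j).1.2.1 (x j).1.2.2.1 (SmF.not_dvd_of_ne (x j).1.2.2.1
      (x j).1.2.1 (x i).1.2.2.1 (x i).1.2.1 (x_ne_x hd hij.symm _ _))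
  constructor
  · intro hx
    refine ⟨deg_rx x, fun j l => ?_, fun j j' => ?_⟩
    · by_cases hj : ∃ i, dir i = j
      · obtain ⟨i, rfl⟩ := hj
        rw [rx_dir]
        exact (x i).2.1 l
      · push Not at hj
        rw [rx_off x hj]
    · by_cases hj : ∃ i, dir i = j
      · obtain ⟨i, rfl⟩ := hj
        by_cases hj' : ∃ i, dir i = j'
        · obtain ⟨i', rfl⟩ := hj'
          rw [rx_dir, rx_dir]
          by_cases hii : i' = i
          · subst hii
            have hself : ∀ P : k[X], leg P P = 0 := by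
              intro P
              unfold leg BSDP.R.chiP
              rw [if_pos dvd_rfl, if_neg (by norm_num)]
            rw [hself, hself]
          · have h1 : ch (x i').1.1 (S.phi (pl (x i).1.1)) = leg (p (dir i)) (p (dir i')) :=
              hx i' i hii
            rw [e i' i hii] at h1
            exact h1
        · push Not at hj'
          rw [rx_dir, rx_off x hj']
          exact (x i).2.2 j' hj'
      · push Not at hj
        by_cases hj' : ∃ i, dir i = j'
        · obtain ⟨i', rfl⟩ := hj'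
          rw [rx_dir, rx_off x hj]
          have n2 : p (dir i') ≠ p j := fun hh => hj i' (hp.inj hh)
          rw [← leg_symm_eq h.two (x i').1.2.1 (x i').1.2.2.1 (hp.monic _) (hp.irr _)
            (hp.monic j) (hp.irr j) (x_ne_off hd i' (x i') hj) n2 (x i').1.2.2.2]
          exact (x i').2.2 j hj
        · push Not at hj'
          rw [rx_off x hj, rx_off x hj']
  · intro hx i j hij
    change ch (x i).1.1 (S.phi (pl (x j).1.1)) = leg (p (dir j)) (p (dir i))
    rw [e i j hij]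
    have := hx.sym (dir j) (dir i)
    rwa [rx_dir, rx_dir] at this

omit [Finite k] in
/-- The code homomorphisms are unramified outside the bad places. -/
theorem isC_gcode (h : ChOk S ch d pl) (hp : PVec d p) (hS : S.Ok) (c : CodeJ d J) :
    (gridG d p dir S ch pl).IsC (gcode d p dir ch c) := by
  constructor
  · exact IT.homG_add hS (IT.homG_add hS
      (IT.homG_smul (h.hom _ (C_ne_zero.mpr ChOk.u_ne_zero)) _)
      (IT.homG_sum hS _ _ fun l _ => IT.homG_smul (h.hom _ (d.ell_monic l).ne_zero) _))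
      (IT.homG_sum hS _ _ fun j _ => IT.homG_smul (h.hom _ (hp.monic j).ne_zero) _)
  · intro v hv
    obtain ⟨P, hP, hP', rfl, h1, h2⟩ := not_bad h hv
    change ch (C d.u) _ • c.1 + ∑ l, ch (d.ell l) _ • c.2.1 l +
      ∑ j ∈ offJ dir, ch (p j) _ • c.2.2 j = 0
    rw [h.sg_u hP hP', zero_smul, zero_add, sum_eq_zero, sum_eq_zero, add_zero]
    · intro j hj
      rw [h.sg_ne hP hP' (hp.monic j) (hp.irr j) (h2 j (mem_offJ.mp hj)), zero_smul]
    · intro l _
      rw [h.sg_ne hP hP' (d.ell_monic l) (d.ell_irr l) (h1 l), zero_smul]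

omit [Finite k] in
/-- The expansion of a `V1`-valued homomorphism unramified outside the bad places. -/
theorem bad_expand_V1 (h : ChOk S ch d pl) (hp : PVec d p) (hS : S.Ok) {c : G → V1}
    (hc : S.HomG c) (hun : ∀ v, v ∉ (gridG d p dir S ch pl).bad → c (S.sg v) = 0) :
    ∃ w : V1, ∀ s, c s = ch (C d.u) s • w + ∑ l, ch (d.ell l) s • c (S.sg (pl (d.ell l))) +
      ∑ j ∈ offJ dir, ch (p j) s • c (S.sg (pl (p j))) := by
  obtain ⟨s0, hs0⟩ := h.u_ne
  have hs1 : ch (C d.u) s0 = 1 := by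
    have key : ∀ a : ZMod 2, a ≠ 0 → a = 1 := by decide
    exact key _ hs0
  set F : G → V1 := fun s => ∑ l, ch (d.ell l) s • c (S.sg (pl (d.ell l))) +
      ∑ j ∈ offJ dir, ch (p j) s • c (S.sg (pl (p j))) with hF
  have key : ∀ w' : V1, ∃ ε : ZMod 2, ∀ s, S.e (c s - F s) w' = ε * ch (C d.u) s := by
    intro w'
    obtain ⟨ε, hε⟩ := bad_expand h hp (dir := dir) (IT.homG_e hc w')
      (fun v hv => by rw [hun v hv, map_zero, LinearMap.zero_apply])
    refine ⟨ε, fun s => ?_⟩
    have e1 : S.e (F s) w' = ∑ l, S.e (c (S.sg (pl (d.ell l)))) w' * ch (d.ell l) s +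
        ∑ j ∈ offJ dir, S.e (c (S.sg (pl (p j)))) w' * ch (p j) s := by
      simp only [hF, map_add, map_sum, LinearMap.add_apply, LinearMap.sum_apply, map_smul,
        LinearMap.smul_apply, smul_eq_mul, mul_comm]
    rw [map_sub, LinearMap.sub_apply, e1, hε s]
    ring
  refine ⟨c s0 - F s0, fun s => ?_⟩
  have h0 : c s - F s - ch (C d.u) s • (c s0 - F s0) = 0 := by
    refine hS.e_nondeg _ fun w' => ?_
    obtain ⟨ε, hε⟩ := key w'
    rw [map_sub, LinearMap.sub_apply, map_smul, LinearMap.smul_apply, hε, hε, hs1, smul_eq_mul]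
    ring
  have h1 : c s = ch (C d.u) s • (c s0 - F s0) + F s := by
    rw [sub_sub, sub_eq_zero] at h0
    rw [h0]
    abel
  rw [add_assoc]
  exact h1

omit [Finite k] in
/-- All codes over the grid come from codes over `J`. -/
theorem exists_gcode (h : ChOk S ch d pl) (hp : PVec d p) (hS : S.Ok) {c : GCode G V1 (Dir m)}
    (hc : (gridG d p dir S ch pl).IsC c) : ∃ c' : CodeJ d J, gcode d p dir ch c' = c := by
  classical
  obtain ⟨w, hw⟩ := bad_expand_V1 h hp hS (dir := dir) hc.1 hc.2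
  refine ⟨(w, fun l => c.1 (S.sg (pl (d.ell l))), fun j =>
    if hj : ∃ i, dir i = j then c.2 hj.choose else c.1 (S.sg (pl (p j)))), ?_⟩
  refine Prod.ext (funext fun s => ?_) (funext fun i => ?_)
  · change ch (C d.u) s • w + ∑ l, ch (d.ell l) s • c.1 (S.sg (pl (d.ell l))) +
      ∑ j ∈ offJ dir, ch (p j) s • (if hj : ∃ i, dir i = j then c.2 hj.choose else
        c.1 (S.sg (pl (p j)))) = c.1 s
    have e1 : ∑ j ∈ offJ dir, ch (p j) s • (if hj : ∃ i, dir i = j then c.2 hj.choose else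
        c.1 (S.sg (pl (p j)))) = ∑ j ∈ offJ dir, ch (p j) s • c.1 (S.sg (pl (p j))) := by
      refine sum_congr rfl fun j hj => ?_
      rw [dif_neg]
      rintro ⟨i, hi⟩
      exact mem_offJ.mp hj i hi
    rw [e1]
    exact (hw s).symm
  · change (if hj : ∃ i', dir i' = dir i then c.2 hj.choose else _) = c.2 i
    have hj : ∃ i', dir i' = dir i := ⟨i, rfl⟩
    rw [dif_pos hj]
    exact congrArg c.2 (dir.injective hj.choose_spec)

omit [Finite k] in
/-- The code over `J` is determined by the code over the grid. -/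
theorem gcode_inj (h : ChOk S ch d pl) (hp : PVec d p) :
    Function.Injective (gcode d p dir ch) := by
  intro c c' hcc
  have hfun : ∀ s, (gcode d p dir ch c).1 s = (gcode d p dir ch c').1 s :=
    fun s => by rw [hcc]
  have hell : ∀ (c : CodeJ d J) (l : Fin d.h),
      (gcode d p dir ch c).1 (S.sg (pl (d.ell l))) = c.2.1 l := by
    intro c l
    change ch (C d.u) _ • c.1 + ∑ l', ch (d.ell l') _ • c.2.1 l' +
      ∑ j ∈ offJ dir, ch (p j) _ • c.2.2 j = c.2.1 l
    rw [h.sg_u (d.ell_monic l) (d.ell_irr l), zero_smul, zero_add, sum_eq_single l,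
      h.sg_self _ (d.ell_monic l) (d.ell_irr l), one_smul, sum_eq_zero, add_zero]
    · intro j _
      rw [h.sg_ne (d.ell_monic l) (d.ell_irr l) (hp.monic j) (hp.irr j) (hp.ne j l).symm,
        zero_smul]
    · intro l' _ hl'
      rw [h.sg_ne (d.ell_monic l) (d.ell_irr l) (d.ell_monic l') (d.ell_irr l')
        (fun hh => hl' (d.ell_inj hh).symm), zero_smul]
    · intro hh
      exact absurd (mem_univ l) hh
  have hoff : ∀ (c : CodeJ d J) (j : J), j ∈ offJ dir →
      (gcode d p dir ch c).1 (S.sg (pl (p j))) = c.2.2 j := by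
    intro c j hj
    change ch (C d.u) _ • c.1 + ∑ l', ch (d.ell l') _ • c.2.1 l' +
      ∑ j ∈ offJ dir, ch (p j) _ • c.2.2 j = c.2.2 j
    rw [h.sg_u (hp.monic j) (hp.irr j), zero_smul, zero_add, sum_eq_zero, zero_add,
      sum_eq_single j, h.sg_self _ (hp.monic j) (hp.irr j), one_smul]
    · intro j' _ hj'
      rw [h.sg_ne (hp.monic j) (hp.irr j) (hp.monic j') (hp.irr j')
        (fun hh => hj' (hp.inj hh).symm), zero_smul]
    · intro hh
      exact absurd hj hh
    · intro l _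
      rw [h.sg_ne (hp.monic j) (hp.irr j) (d.ell_monic l) (d.ell_irr l) (hp.ne j l), zero_smul]
  have h1 : c.2.1 = c'.2.1 := funext fun l => by rw [← hell c l, ← hell c' l, hcc]
  have h2 : c.2.2 = c'.2.2 := by
    funext j
    by_cases hj : ∃ i, dir i = j
    · obtain ⟨i, rfl⟩ := hj
      exact congrFun (congrArg Prod.snd hcc) i
    · push Not at hj
      rw [← hoff c j (mem_offJ.mpr hj), ← hoff c' j (mem_offJ.mpr hj), hcc]
  have h3 : c.1 = c'.1 := by
    obtain ⟨s, hs⟩ := h.u_ne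
    have hs1 : ch (C d.u) s = 1 := by
      have key : ∀ a : ZMod 2, a ≠ 0 → a = 1 := by decide
      exact key _ hs
    have h4 := hfun s
    change ch (C d.u) s • c.1 + ∑ l', ch (d.ell l') s • c.2.1 l' +
      ∑ j ∈ offJ dir, ch (p j) s • c.2.2 j = ch (C d.u) s • c'.1 +
      ∑ l', ch (d.ell l') s • c'.2.1 l' + ∑ j ∈ offJ dir, ch (p j) s • c'.2.2 j at h4
    rw [h1, h2, hs1, one_smul, one_smul] at h4
    exact add_right_cancel (add_right_cancel h4)
  exact Prod.ext h3 (Prod.ext h1 h2)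

/-- The frame in terms of the codes over `J`. -/
theorem gcode_mem_FF (h : ChOk S ch d pl) (hp : PVec d p) (hd : DegOk d p dir) (hS : S.Ok)
    {x : ∀ i, XG d p dir i} (hx : x ∈ (gridG d p dir S ch pl).Xs) (c : CodeJ d J) :
    gcode d p dir ch c ∈ (gridG d p dir S ch pl).FF ↔ c ∈ FJ S ch d (rx d p dir x) := by
  rw [Grid.mem_FF hS (gridG_ok h hp hd hS) hx, chi_gridG, ch_gridG]
  exact ⟨fun h1 => h1.2, fun h1 => ⟨isC_gcode h hp hS c, h1⟩⟩

end

end Pool.Agent.SmJ
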