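import Pool.Agent.Lib.SmJ.I.Claim
import Pool.Agent.Lib.SmJ.I.UniInst

/-!
SMITH, block I: the joint between I5 and `grid_abs`: factorisation of the condition `Good` and of
the sign of `Fab` at the good points.
-/

set_option autoImplicit false

open Finset

namespace Pool.Agent.SmJ.UD

open Pool.Agent.Sm (Uni)

open Pool.Agent.SmJ Pool.Agent.SmJ.IT Pool.Agent.SmA

section general

variable {G V V1 Pl : Type*} [Group G] [AddCommGroup V] [DistribMulAction G V]
  [AddCommGroup V1] [Module (ZMod 2) V1] {S : Sys G V V1 Pl}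
variable {ι : Type*} [Fintype ι] [DecidableEq ι] {X : ι → Type*} {Γ : Grid S X} {r k : ℕ}
variable {τ : Twr G V1 ι r} {x0 x y : ∀ i, X i}

/-- The conditions on a face depend only on the coordinates of the face. -/
theorem faceOk_congr {U : Finset ι} (h : ∀ i ∈ U, x i = y i) (hx : τ.FaceOk Γ k U x0 x) :
    τ.FaceOk Γ k U x0 y := by
  have hm : ∀ T, T ⊆ U → mix T x0 x = mix T x0 y := fun T hT => Grid.mix_congr hT h
  refine ⟨fun i hi => h i hi ▸ hx.1 i hi, fun T hT => hm T hT ▸ hx.2.1 T hT,
    fun l W hW hW0 hWj hσ T hT s => ?_⟩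
  rw [← hx.2.2 l W hW hW0 hWj hσ T hT s]
  refine alt_congr fun T' hT' => ?_
  unfold Twr.fam
  rw [hm (T ∪ T') (union_subset (hT.trans sdiff_subset) (hT'.trans hW))]

theorem faceOk_iff {U : Finset ι} (h : ∀ i ∈ U, x i = y i) :
    τ.FaceOk Γ k U x0 x ↔ τ.FaceOk Γ k U x0 y :=
  ⟨faceOk_congr h, faceOk_congr fun i hi => (h i hi).symm⟩

open Classical in
/-- (hfac) -/
theorem hfac (τ : Twr G V1 ι r) (Γ : Grid S X) (k : ℕ) (x0 : ∀ i, X i) :
    ∃ φ : ι → (∀ i, X i) → ℝ, (∀ j, Misses j (φ j)) ∧
      ∀ x, (if τ.Good Γ k x0 x then (1 : ℝ) else 0) = ∏ j, φ j x := by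
  refine ⟨fun j x => if τ.FaceOk Γ k (univ.erase j) x0 x then 1 else 0, fun j => ⟨fun x => ?_,
    fun x z => ?_⟩, fun x => ?_⟩
  · beta_reduce
    split_ifs <;> simp
  · have h1 : τ.FaceOk Γ k (univ.erase j) x0 (Function.update x j z) ↔
        τ.FaceOk Γ k (univ.erase j) x0 x :=
      faceOk_iff fun i hi => Function.update_of_ne (ne_of_mem_erase hi) _ _
    simp only [h1]
  · by_cases h : τ.Good Γ k x0 x
    · rw [if_pos h, prod_eq_one]
      intro j _
      exact if_pos (h j)
    · rw [if_neg h]
      obtain ⟨j, hj⟩ : ∃ j, ¬ τ.FaceOk Γ k (univ.erase j) x0 x := by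
        by_contra hc
        push Not at hc
        exact h hc
      symm
      exact prod_eq_zero (mem_univ j) (if_neg hj)

/-- The sign of an element of `ZMod 2`. -/
noncomputable def sR (a : ZMod 2) : ℝ := if a = 0 then 1 else -1

theorem sR_add (a b : ZMod 2) : sR (a + b) = sR a * sR b := by
  have hz : ∀ z : ZMod 2, z = 0 ∨ z = 1 := by decide
  have h11 : (1 : ZMod 2) + 1 = 0 := rfl
  unfold sR
  rcases hz a with rfl | rfl <;> rcases hz b with rfl | rfl <;> simp [h11]

theorem sR_abs (a : ZMod 2) : |sR a| = 1 := by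
  unfold sR
  split_ifs <;> simp

theorem sR_sum {α : Type*} (s : Finset α) (f : α → ZMod 2) :
    sR (∑ i ∈ s, f i) = ∏ i ∈ s, sR (f i) := by
  classical
  induction s using Finset.induction_on with
  | empty => simp [sR]
  | insert a s ha ih => rw [sum_insert ha, prod_insert ha, sR_add, ih]

theorem prod_abs_le {α : Type*} (s : Finset α) (f : α → ZMod 2) : |∏ i ∈ s, sR (f i)| ≤ 1 := by
  rw [← sR_sum, sR_abs]

end general

variable {G V V1 Pl : Type*} [Group G] [AddCommGroup V] [DistribMulAction G V]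
  [AddCommGroup V1] [Module (ZMod 2) V1] {S : Sys G V V1 Pl}
variable {k r : ℕ} {X : Option (Option (Fin k)) → Type*} {Γ : Grid S X}
variable {τ : Twr G V1 (Option (Option (Fin k))) r} {x0 x : ∀ i, X i}

theorem extP_agree (x0 x : ∀ i, X i) :
    ∀ i ∈ (univ : Finset (Option (Option (Fin k)))).erase none,
      extP x0 (fun i => x (some i)) i = x i := by
  intro i hi
  cases i with
  | none => exact absurd hi (notMem_erase _ _)
  | some i => rfl

/-- (u4), first part. -/
theorem good_FG (h : τ.Good Γ k x0 x) : τ.FG Γ x0 (fun i => x (some i)) :=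
  faceOk_congr (fun i hi => (extP_agree x0 x i hi).symm) (h none)

theorem none_notMem_upF (T : Finset (Fin k)) : none ∉ upF T := by
  simp [upF]

theorem upF_nonempty (T : Finset (Fin k)) : (upF T).Nonempty :=
  insert_nonempty _ _

theorem upF_card (T : Finset (Fin k)) : (upF T).card = T.card + 1 := by
  unfold upF
  rw [card_insert_of_notMem, card_map]
  simp

theorem phiC_ext {R : Finset (Option (Option (Fin k)))} (hR : none ∉ R) :
    PhiC S k (τ.fam Γ k x0 (extP x0 (fun i => x (some i))) 0) R =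
      PhiC S k (τ.fam Γ k x0 x 0) R := by
  apply IC.phiC_congr
  intro T hT
  unfold Twr.fam
  rw [Grid.mix_congr (U := univ.erase none) (IC.subset_erase fun h => hR (hT h)) (extP_agree x0 x)]

theorem pdel_ext {T : Finset (Option (Option (Fin k)))} (hT : none ∉ T) (s : G) :
    pdel (Γ.del x0 (extP x0 (fun i => x (some i)))) T s = pdel (Γ.del x0 x) T s := by
  unfold pdel
  refine prod_congr rfl fun i hi => ?_
  cases i with
  | none => exact absurd hi hT
  | some i => rfl

/-- The condition on `Th` on the lower face, for the point `x`. -/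
theorem isTh_ext {Th : G → V1} (h : τ.IsTh Γ x0 (fun i => x (some i)) Th) :
    ThRel S k (Γ.del x0 x) (τ.fam Γ k x0 x 0) (univ.erase none) Th := by
  intro s t
  rw [h.2.1 s t]
  congr 1
  refine sum_congr rfl fun T hT => ?_
  have hT' : none ∉ T := fun hc =>
    notMem_erase none _ (mem_powerset.1 (mem_of_mem_erase hT) hc)
  rw [pdel_ext hT', phiC_ext]
  exact fun hc => notMem_erase none _ (mem_sdiff.1 hc).1

open Classical in
/-- (u4) -/
theorem form (hS : S.Ok) (hΓ : Γ.Ok) (hτ : τ.Ok Γ k) (hk : 1 ≤ k) (hσ : τ.sig 0 = {some none})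
    (hb : ∀ i, i ≠ none → τ.b.2 i = 0) (lam : V1 →+ ZMod 2)
    (hlam : ∀ w, lam w = S.e w (τ.b.2 none)) (x0 : ∀ i, X i) :
    ∃ ψ : Option (Option (Fin k)) → (∀ i, X i) → ℝ, (∀ j, Misses j (ψ j)) ∧
      ∀ x, τ.Good Γ k x0 x → (if τ.Fab Γ k x = 0 then (1 : ℝ) else -1) =
        (τ.UU Γ x0 (fun i => x (some i))).Kt lam (S.phi (Γ.pl none (x none))) *
          ∏ j, ψ j x := by
  -- the choice of a direction outside of `T`
  have hch : ∀ T : Finset (Option (Option (Fin k))), ∃ j, T ≠ univ → j ∉ T := by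
    intro T
    by_cases hT : T = univ
    · exact ⟨none, fun h => absurd hT h⟩
    · obtain ⟨j, hj⟩ := IC.exists_notMem hT
      exact ⟨j, fun _ => hj⟩
  choose J hJ using hch
  let E : Finset (Finset (Option (Option (Fin k)))) := univ.erase univ
  let ψ : Option (Option (Fin k)) → (∀ i, X i) → ℝ := fun j x =>
    (∏ T ∈ E with J T = j, sR (τ.Fab Γ k (mix T x0 x))) *
      (if j = none then sR (S.e (τ.Th Γ x0 (fun i => x (some i)) (S.phi (Γ.pl none (x0 none))))
        (τ.b.2 none)) else 1)
  refine ⟨ψ, fun j => ⟨fun x => ?_, fun x z => ?_⟩, fun x h => ?_⟩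
  · change |_ * _| ≤ (1 : ℝ)
    rw [abs_mul]
    refine mul_le_one₀ (prod_abs_le _ _) (abs_nonneg _) ?_
    split_ifs
    · exact (sR_abs _).le
    · simp
  · change _ * _ = _ * _
    congr 1
    · refine prod_congr rfl fun T hT => ?_
      obtain ⟨hT1, hT2⟩ := mem_filter.1 hT
      have hj : j ∉ T := hT2 ▸ hJ T (ne_of_mem_erase hT1)
      rw [Grid.mix_congr (U := univ.erase j) (IC.subset_erase hj) fun i hi =>
        Function.update_of_ne (ne_of_mem_erase hi) z x]
    · split_ifs with hj
      · subst hj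
        rfl
      · rfl
  · -- the formula
    have hcard : Fintype.card (Option (Option (Fin k))) = k + 2 := by simp
    have hFG := good_FG h
    have hTh := exists_isTh hS hΓ hτ hσ hFG
    have hF := IC.good_Fab hS hΓ hτ hk hcard h none hb hTh.1 (isTh_ext hTh) hTh.2.2
    -- the value of `Kt`
    have hD : S.phi (Γ.pl none (x none)) ∈ S.D (Γ.pl none (x none)) := hS.phi_mem _
    have hcube := IC.good_cubeOk hS hΓ (by omega) h
    have hKt : (τ.UU Γ x0 (fun i => x (some i))).Kt lam (S.phi (Γ.pl none (x none))) =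
        sR (S.e (τ.Th Γ x0 (fun i => x (some i)) (S.phi (Γ.pl none (x none)))) (τ.b.2 none)) := by
      unfold Uni.Kt
      rw [if_pos]
      · rw [← hlam]
        have e1 : (τ.UU Γ x0 (fun i => x (some i))).Phi univ =
            τ.Th Γ x0 (fun i => x (some i)) := by
          unfold Twr.UU
          exact if_pos rfl
        rw [e1]
        rfl
      · refine ⟨fun i => ?_, fun T hT => ?_⟩
        · exact hcube.del_D none true (some (some i)) (by simp) _ hD
        · have e1 : (τ.UU Γ x0 (fun i => x (some i))).Phi T =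
              PhiC S k (τ.fam Γ k x0 (extP x0 (fun i => x (some i))) 0) (upF T) := by
            unfold Twr.UU
            exact if_neg hT
          rw [e1, phiC_ext (none_notMem_upF T)]
          refine IC.good_phi_zero hS hΓ hτ hk hcard h (upF_nonempty T) ?_ (none_notMem_upF T)
            true _ hD
          rw [upF_card]
          have h2 : T.card < (univ : Finset (Fin k)).card :=
            card_lt_card (ssubset_univ_iff.2 hT)
          rw [card_univ, Fintype.card_fin] at h2
          omega
    have e2 : (if τ.Fab Γ k x = 0 then (1 : ℝ) else -1) = sR (τ.Fab Γ k x) := rfl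
    have e3 : ∏ j, ψ j x = (∏ T ∈ E, sR (τ.Fab Γ k (mix T x0 x))) *
        sR (S.e (τ.Th Γ x0 (fun i => x (some i)) (S.phi (Γ.pl none (x0 none))))
          (τ.b.2 none)) := by
      change ∏ j, (_ * _) = _
      rw [prod_mul_distrib]
      congr 1
      · exact prod_fiberwise_of_maps_to (fun T _ => mem_univ (J T)) _
      · rw [prod_ite_eq' univ none]
        simp
    rw [e2, hF, hKt, e3, sR_add, sR_sum, map_add, LinearMap.add_apply, sR_add]
    ring

end Pool.Agent.SmJ.UD
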