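import Pool.Agent.Lib.SmJ.I.UniInst
import Pool.Agent.Lib.Sm.I.Mean

/-!
SMITH, block I: cancellation over the last coordinate (the hypothesis `hBd` of `grid_abs`) for an
abstract grid.
-/

set_option autoImplicit false

open Finset Polynomial

namespace Pool.Agent.SmJ.CA

open Pool.Agent.Sm (Uni ChebOdd mean_bound)

open Pool.Agent.SmJ Pool.Agent.SmJ.IT Pool.Agent.SmA

variable {G V V1 Pl : Type*} [Group G] [AddCommGroup V] [DistribMulAction G V]
  [AddCommGroup V1] [Module (ZMod 2) V1] {S : Sys G V V1 Pl}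
variable {m r : ℕ} {X : Option (Option (Fin m)) → Type*} {Γ : Grid S X}
variable {τ : Twr G V1 (Option (Option (Fin m))) r} {x0 : ∀ i, X i}

open Classical in
/-- The function `h` of `grid_abs`. -/
noncomputable def hh (τ : Twr G V1 (Option (Option (Fin m))) r) (Γ : Grid S X) (lam : V1 →+ ZMod 2)
    (x0 : ∀ i, X i) (x' : ∀ i : Option (Fin m), X (some i)) (P : X none) : ℝ :=
  if τ.FG Γ x0 x' then (τ.UU Γ x0 x').Kt lam (S.phi (Γ.pl none P)) else 0

theorem hh_abs (lam : V1 →+ ZMod 2) (x' : ∀ i : Option (Fin m), X (some i)) (P : X none) :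
    |hh τ Γ lam x0 x' P| ≤ 1 := by
  unfold hh
  split_ifs
  · exact Uni.Kt_abs _ _ _
  · simp

private theorem sum_biUnion_le' {α β : Type*} [DecidableEq α] [DecidableEq β] (s : Finset α)
    (t : α → Finset β) (f : β → ℕ) : ∑ x ∈ s.biUnion t, f x ≤ ∑ i ∈ s, ∑ x ∈ t i, f x := by
  induction s using Finset.induction_on with
  | empty => simp
  | insert a s ha ih =>
    rw [biUnion_insert, sum_insert ha]
    have := sum_union_inter (s₁ := t a) (s₂ := s.biUnion t) (f := f)
    omega

variable [Fintype (X none)]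

private theorem sum_insert_le' {β : Type*} [DecidableEq β] (a : β) (s : Finset β) (f : β → ℕ) :
    ∑ x ∈ insert a s, f x ≤ f a + ∑ x ∈ s, f x := by
  by_cases h : a ∈ s
  · rw [insert_eq_of_mem h]
    exact Nat.le_add_left _ _
  · rw [sum_insert h]

/-- The hypothesis `hBd` of `grid_abs`. -/
theorem hBd_abs {F : Type*} [Field F] (hS : S.Ok) (hΓ : Γ.Ok) (hτ : τ.Ok Γ m) (hm : 1 ≤ m)
    (hσ : τ.sig 0 = {some none}) {e : V1} (he : (τ.c 0).2 (some none) = e)
    (lam : V1 →+ ZMod 2) (hlam : lam e = 1) (pl : F[X] → Pl) {q a C : ℕ}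
    (hC : ChebOdd S.NN (fun P => S.sg (pl P)) (fun P => S.phi (pl P)) q a C)
    (pr : ∀ i, X i → F[X]) (hpl : ∀ i x, Γ.pl i x = pl (pr i x))
    (hinj : ∀ i x, ∀ P : F[X], P.Monic → Irreducible P → pl P = Γ.pl i x → P = pr i x)
    {b : ℕ} (χ : Fin b → G → ZMod 2) (hχ : ∀ j, S.HomG (χ j)) (c : Fin b → ZMod 2)
    (D R : ℕ) (hD : 4 ∣ D)
    (hX : ∀ P : F[X], (∃ x : X none, pr none x = P) ↔
      P.Monic ∧ Irreducible P ∧ P.natDegree = D ∧ ∀ j, χ j (S.phi (pl P)) = c j)
    (E : Finset F[X]) (hE : ∀ P, P ∈ E ↔ P.Monic ∧ Irreducible P ∧ P.natDegree = D)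
    (B0 : Finset F[X])
    (hB0 : ∀ P : F[X], P.Monic → Irreducible P →
      (pl P ∈ Γ.bad ∨ ∃ j, χ j (S.sg (pl P)) ≠ 0) → P ∈ B0)
    (hB0d : ∀ P ∈ B0, P.natDegree ≠ D)
    (hDgD : ∀ i x, (pr (some i) x).natDegree ≠ D)
    (hR : ∀ x y z : ∀ i : Option (Fin m), X (some i), ∑ P ∈ B0, P.natDegree +
      ∑ i, ((pr (some i) (x i)).natDegree + (pr (some i) (y i)).natDegree +
        (pr (some i) (z i)).natDegree) ≤ R)
    (x0 : ∀ i, X i) (ya yb : ∀ i : Option (Fin m), X (some i))
    (hab : ∀ i, ya i ≠ yb i ∧ ya i ≠ x0 (some i) ∧ yb i ≠ x0 (some i)) :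
    |∑ P : X none, ∏ W : Finset (Option (Fin m)), hh τ Γ lam x0 (mix W ya yb) P| ≤
      C * (2 ^ b * ((2 : ℝ) ^ m * (Nat.card V1 : ℝ) ^ 2 ^ m) ^ 2 ^ (m + 1) * (R + 1)) ^ a *
        (q : ℝ) ^ (D / 2) := by
  classical
  have := hS.fin1
  by_cases hFG : ∀ W, τ.FG Γ x0 (mix W ya yb)
  swap
  · push Not at hFG
    obtain ⟨W, hW⟩ := hFG
    have h0 : ∀ P : X none, ∏ W : Finset (Option (Fin m)), hh τ Γ lam x0 (mix W ya yb) P = 0 :=
      fun P => prod_eq_zero (mem_univ W) (if_neg hW)
    rw [sum_congr rfl fun P _ => h0 P, sum_const_zero, abs_zero]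
    positivity
  have hne : Nonempty (Fin m) := ⟨⟨0, hm⟩⟩
  let U : Finset (Option (Fin m)) → Uni (Fin m) G V1 := fun W => τ.UU Γ x0 (mix W ya yb)
  let B : Finset F[X] := B0 ∪ univ.biUnion fun i : Option (Fin m) =>
    {pr (some i) (x0 (some i)), pr (some i) (ya i), pr (some i) (yb i)}
  -- characters at the generators of the other directions
  have hdir : ∀ (i j : Option (Option (Fin m))) (x : X i) (y : X j), i ≠ j →
      Γ.th i x (S.sg (Γ.pl j y)) = 0 := fun i j x y hij =>
    hΓ.th_unr i x _ (hΓ.pl_bad j y) fun h => hij (hΓ.pl_dir _ _ _ _ h).symm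
  have hsame : ∀ (i : Option (Option (Fin m))) (x y : X i), x ≠ y →
      Γ.th i x (S.sg (Γ.pl i y)) = 0 := fun i x y hxy =>
    hΓ.th_unr i x _ (hΓ.pl_bad i y) fun h => hxy (hΓ.pl_inj i h).symm
  have hmemB : ∀ i, pr (some i) (x0 (some i)) ∈ B ∧ pr (some i) (ya i) ∈ B ∧
      pr (some i) (yb i) ∈ B := by
    intro i
    have h1 : ∀ P ∈ ({pr (some i) (x0 (some i)), pr (some i) (ya i), pr (some i) (yb i)} :
        Finset F[X]), P ∈ B := fun P hP =>
      mem_union_right _ (mem_biUnion.2 ⟨i, mem_univ i, hP⟩)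
    exact ⟨h1 _ (by simp), h1 _ (by simp), h1 _ (by simp)⟩
  have key := mean_bound hC hS.top_mem hS.inf_mem U (fun W => UU_is hS hΓ hτ hσ (hFG W))
    (fun W => UU_tf hS hΓ hτ hσ (hFG W)) lam χ (fun j => (hχ j).2) (fun j => (hχ j).1) c
    (univ : Finset (Option (Fin m))) (S.sg (Γ.pl (some none) (yb none)))
    (fun i => S.sg (Γ.pl (some (some i)) (yb (some i))))
    (fun W i => by
      change Γ.th (some (some i)) _ _ + Γ.th (some (some i)) _ _ = 0
      rw [hdir _ _ _ _ (by simp), hdir _ _ _ _ (by simp), add_zero])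
    (fun W i l hl => by
      change Γ.th (some (some l)) _ _ + Γ.th (some (some l)) _ _ = 0
      rw [hdir _ _ _ _ (by simpa using hl), hdir _ _ _ _ (by simpa using hl), add_zero])
    (fun i => by
      change Γ.th (some (some i)) _ _ + Γ.th (some (some i)) (mix univ ya yb (some i)) _ = 1
      rw [hsame _ _ _ (hab (some i)).2.2.symm, zero_add]
      have : mix univ ya yb (some i) = yb (some i) := by simp [mix]
      rw [this]
      exact hΓ.th_self _ _)
    (by
      change lam ((τ.UU Γ x0 (mix univ ya yb)).Phi ∅ _) = 1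
      rw [UU_empty hS hΓ hτ hm hσ he (hFG univ), hsame _ _ _ (hab none).2.2.symm, zero_add]
      have : mix univ ya yb none = yb none := by simp [mix]
      rw [this, hΓ.th_self, one_smul, hlam])
    (fun W hW => by
      obtain ⟨i, hi⟩ : ∃ i, i ∉ W := by
        by_contra hc
        push Not at hc
        exact hW (eq_univ_of_forall hc)
      have hmix : mix W ya yb i = ya i := by simp [mix, hi]
      cases i with
      | none =>
        right
        change (τ.UU Γ x0 (mix W ya yb)).Phi ∅ _ = 0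
        rw [UU_empty hS hΓ hτ hm hσ he (hFG W), hsame _ _ _ (hab none).2.2.symm, hmix,
          hsame _ _ _ (hab none).1, add_zero, zero_smul]
      | some i =>
        left
        refine ⟨i, ?_⟩
        change Γ.th (some (some i)) _ _ + Γ.th (some (some i)) (mix W ya yb (some i)) _ = 0
        rw [hsame _ _ _ (hab (some i)).2.2.symm, hmix, hsame _ _ _ (hab (some i)).1, add_zero])
    D R hD B
    (by
      intro P hP1 hP2 hP3
      by_contra hPB
      have hbad : pl P ∉ Γ.bad := fun h => hPB (mem_union_left _ (hB0 P hP1 hP2 (Or.inl h)))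
      have hx0 : ∀ i, pl P ≠ Γ.pl (some i) (x0 (some i)) := by
        intro i h
        have := hinj _ _ P hP1 hP2 h
        exact hPB (this ▸ (hmemB i).1)
      have hx1 : ∀ W i, pl P ≠ Γ.pl (some i) (mix W ya yb i) := by
        intro W i h
        have h1 := hinj _ _ P hP1 hP2 h
        by_cases hi : i ∈ W
        · have hmix : mix W ya yb i = yb i := by simp [mix, hi]
          rw [hmix] at h1
          exact hPB (h1 ▸ (hmemB i).2.2)
        · have hmix : mix W ya yb i = ya i := by simp [mix, hi]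
          rw [hmix] at h1
          exact hPB (h1 ▸ (hmemB i).2.1)
      have hz := fun W => UU_sg hS hΓ hτ hσ (hFG W) hbad hx0 (hx1 W)
      rcases hP3 with ⟨j, hj⟩ | ⟨W, i, hi⟩ | ⟨W, T, hT⟩
      · exact hPB (mem_union_left _ (hB0 P hP1 hP2 (Or.inr ⟨j, hj⟩)))
      · exact hi ((hz W).1 i)
      · exact hT ((hz W).2 T))
    (by
      refine le_trans ?_ (hR (fun i => x0 (some i)) ya yb)
      have e1 := sum_union_inter (s₁ := B0) (s₂ := univ.biUnion fun i : Option (Fin m) =>
        {pr (some i) (x0 (some i)), pr (some i) (ya i), pr (some i) (yb i)})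
        (f := fun P : F[X] => P.natDegree)
      have e2 := sum_biUnion_le' (univ : Finset (Option (Fin m))) (fun i : Option (Fin m) =>
        ({pr (some i) (x0 (some i)), pr (some i) (ya i), pr (some i) (yb i)} : Finset F[X]))
        (fun P : F[X] => P.natDegree)
      have e3 : ∀ i ∈ (univ : Finset (Option (Fin m))),
          ∑ P ∈ ({pr (some i) (x0 (some i)), pr (some i) (ya i), pr (some i) (yb i)} :
            Finset F[X]), P.natDegree ≤ (pr (some i) (x0 (some i))).natDegree +
              (pr (some i) (ya i)).natDegree + (pr (some i) (yb i)).natDegree := by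
        intro i _
        have f1 := sum_insert_le' (pr (some i) (x0 (some i)))
          {pr (some i) (ya i), pr (some i) (yb i)} (fun P : F[X] => P.natDegree)
        have f2 := sum_insert_le' (pr (some i) (ya i)) {pr (some i) (yb i)}
          (fun P : F[X] => P.natDegree)
        rw [sum_singleton] at f2
        omega
      have e4 := sum_le_sum e3
      have e5 : ∑ P ∈ B, P.natDegree ≤ ∑ P ∈ B0, P.natDegree +
          ∑ P ∈ univ.biUnion fun i : Option (Fin m) =>
            ({pr (some i) (x0 (some i)), pr (some i) (ya i), pr (some i) (yb i)} :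
              Finset F[X]), P.natDegree := by
        rw [← e1]
        exact Nat.le_add_right _ _
      omega)
    (by
      intro P hP
      rcases mem_union.1 hP with h | h
      · exact hB0d P h
      · obtain ⟨i, -, hi⟩ := mem_biUnion.1 h
        simp only [mem_insert, mem_singleton] at hi
        rcases hi with rfl | rfl | rfl <;> exact hDgD i _)
    E hE
  have hsum : ∑ P : X none, ∏ W : Finset (Option (Fin m)), hh τ Γ lam x0 (mix W ya yb) P =
      ∑ P ∈ E with ∀ j, χ j (S.phi (pl P)) = c j, ∏ W, (U W).Kt lam (S.phi (pl P)) := by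
    refine sum_bij (fun x _ => pr none x) ?_ ?_ ?_ ?_
    · intro x _
      obtain ⟨h1, h2, h3, h4⟩ := (hX _).1 ⟨x, rfl⟩
      exact mem_filter.2 ⟨(hE _).2 ⟨h1, h2, h3⟩, h4⟩
    · intro x _ y _ hxy
      apply hΓ.pl_inj none
      rw [hpl, hpl, hxy]
    · intro P hP
      obtain ⟨h1, h2⟩ := mem_filter.1 hP
      obtain ⟨h3, h4, h5⟩ := (hE _).1 h1
      obtain ⟨x, hx⟩ := (hX P).2 ⟨h3, h4, h5, h2⟩
      exact ⟨x, mem_univ x, hx⟩
    · intro x _
      refine prod_congr rfl fun W _ => ?_
      unfold hh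
      rw [if_pos (hFG W), hpl]
  rw [hsum]
  refine key.trans (le_of_eq ?_)
  rw [Fintype.card_fin, Fintype.card_finset, Fintype.card_option, Fintype.card_fin]

end Pool.Agent.SmJ.CA
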