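import Pool.Agent.Lib.SmJ.G.Kum
import Pool.Agent.Lib.SmJ.H.Defs
import Pool.Agent.Lib.SmA.Cubes
import Pool.Agent.Lib.SmA.Cover

/-!
# SMITH for Jacobians (MP_950c68_ag), block I, sections I0 - I5: definitions

The same as `Lib/Sm/I/Defs.lean` for a general finite space `V1` with a nondegenerate alternating form.

`S : Sys G V V1 Pl` is the abstract structure of block G. A grid `Γ : Grid S X` has for every direction
`i : ι` a set `X i` of places `Γ.pl i x` with quadratic characters `Γ.th i x`, a base character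
`Γ.chi0`, the set `Γ.bad` (infinity, the divisors of `al be (al - be)` and of `D_0`) and prescribed
symbols `Γ.sm`. `Γ.chi x` is the twist at the point `x`, `Γ.Xs` the set of the points with the
prescribed symbols.

A code `c : GCode G V1 ι` is a homomorphism `c.1` unramified outside of `Γ.bad` and a vector `c.2` of
elements of `V1`; it gives at every point `x` the homomorphism `Γ.ch c x`. `Γ.FF` is the set of the
codes of the elements of the Selmer groups.
-/

set_option autoImplicit false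

open Finset

namespace Pool.Agent.SmJ

variable {G V V1 Pl : Type*} [Group G] [AddCommGroup V] [DistribMulAction G V]
  [AddCommGroup V1] [Module (ZMod 2) V1]

/-- The codes of homomorphisms `G → V1` over a grid. -/
abbrev GCode (G : Type*) (V1 : Type*) (ι : Type*) := (G → V1) × (ι → V1)

/-- The data of a grid. -/
structure Grid (S : Sys G V V1 Pl) {ι : Type*} (X : ι → Type*) where
  pl : ∀ i, X i → Pl
  th : ∀ i, X i → G → ZMod 2
  chi0 : G → ZMod 2
  bad : Set Pl
  sm : ι → ι → ZMod 2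

namespace Grid

variable {S : Sys G V V1 Pl} {ι : Type*} {X : ι → Type*}

/-- The hypotheses (I0): `pl i x` is a good place where only `th i x` is ramified, the characters
`th i x`, `x ∈ X i`, agree on the decomposition groups of the bad places (g1), and the homomorphisms
which are unramified outside of the bad places agree at the Frobenius elements of `X i` (g2). -/
structure Ok (Γ : Grid S X) : Prop where
  bad_good : ∀ v, v ∉ Γ.bad → v ∈ S.good
  pl_bad : ∀ i x, Γ.pl i x ∉ Γ.bad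
  pl_dir : ∀ i x j y, Γ.pl i x = Γ.pl j y → i = j
  pl_inj : ∀ i, Function.Injective (Γ.pl i)
  th_hom : ∀ i x, S.HomG (Γ.th i x)
  th_self : ∀ i x, Γ.th i x (S.sg (Γ.pl i x)) = 1
  th_unr : ∀ i x v, v ∉ Γ.bad → v ≠ Γ.pl i x → Γ.th i x (S.sg v) = 0
  th_bad : ∀ v ∈ Γ.bad, ∀ i x y, ∀ s ∈ S.D v, Γ.th i x s = Γ.th i y s
  chi0_hom : S.HomG Γ.chi0
  chi0_unr : ∀ v, v ∉ Γ.bad → Γ.chi0 (S.sg v) = 0
  unif : ∀ c : G → ZMod 2, S.HomG c → (∀ v, v ∉ Γ.bad → c (S.sg v) = 0) →
    ∀ i x y, c (S.phi (Γ.pl i x)) = c (S.phi (Γ.pl i y))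

variable (Γ : Grid S X)

/-- The points with the prescribed symbols. -/
def Xs : Set (∀ i, X i) :=
  {x | ∀ i j, i ≠ j → Γ.th i (x i) (S.phi (Γ.pl j (x j))) = Γ.sm i j}

/-- `c` is a code: the first component is a homomorphism unramified outside of the bad places. -/
def IsC (c : GCode G V1 ι) : Prop := S.HomG c.1 ∧ ∀ v, v ∉ Γ.bad → c.1 (S.sg v) = 0

/-- The difference of the characters of the two ends of the direction `i`. -/
def del (y z : ∀ i, X i) (i : ι) (s : G) : ZMod 2 := Γ.th i (y i) s + Γ.th i (z i) s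

variable [Fintype ι]

/-- The twist at the point `x`. -/
def chi (x : ∀ i, X i) (s : G) : ZMod 2 := Γ.chi0 s + ∑ i, Γ.th i (x i) s

/-- The homomorphism with the code `c` at the point `x`. -/
def ch (c : GCode G V1 ι) (x : ∀ i, X i) (s : G) : V1 := c.1 s + ∑ i, Γ.th i (x i) s • c.2 i

/-- The frame: the codes of the elements of the `2`-Selmer groups. -/
def FF : Set (GCode G V1 ι) := {c | Γ.IsC c ∧ ∀ x ∈ Γ.Xs, S.IsSel1 (Γ.chi x) (Γ.ch c x)}

end Grid

/-- The type data (I2, I3): `c 0 = a`, `c 1`, ..., `c r` are codes, `jl l ≥ 1` is the level of the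
tower of `c l`, `fl l` the values of the pairing with the top of this tower (used if `jl l < k`),
`sig l` the set of the directions where `c l` is supported (at most one), `b` the right code. -/
structure Twr (G : Type*) (V1 : Type*) (ι : Type*) (r : ℕ) where
  c : Fin (r + 1) → GCode G V1 ι
  jl : Fin (r + 1) → ℕ
  fl : Fin (r + 1) → GCode G V1 ι → ZMod 2
  sig : Fin (r + 1) → Finset ι
  b : GCode G V1 ι

namespace Twr

variable {S : Sys G V V1 Pl} {ι : Type*} [Fintype ι] {X : ι → Type*} {r : ℕ}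

/-- `Psi` is a top of the tower number `l` at the point `x`. -/
structure IsTow (τ : Twr G V1 ι r) (Γ : Grid S X) (k : ℕ) (x : ∀ i, X i) (l : Fin (r + 1))
    (Psi : G → V) : Prop where
  sel : S.IsSel (Γ.chi x) (τ.jl l) Psi
  base : ∀ s, (2 : ℕ) ^ (τ.jl l - 1) • Psi s = S.iota (Γ.ch (τ.c l) x s)
  val : τ.jl l < k → ∀ d ∈ Γ.FF, S.CT (Γ.chi x) Psi (Γ.ch d x) = τ.fl l d

/-- The points of the given type. -/
def Y (τ : Twr G V1 ι r) (Γ : Grid S X) (k : ℕ) : Set (∀ i, X i) :=
  {x | x ∈ Γ.Xs ∧ ∀ l, ∃ Psi, τ.IsTow Γ k x l Psi}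

open Classical in
/-- The chosen towers. -/
noncomputable def psi (τ : Twr G V1 ι r) (Γ : Grid S X) (k : ℕ) (x : ∀ i, X i) (l : Fin (r + 1)) :
    G → V := if h : ∃ Psi, τ.IsTow Γ k x l Psi then h.choose else 0

/-- The function `F_ab` (meaningful on `Y`). -/
noncomputable def Fab (τ : Twr G V1 ι r) (Γ : Grid S X) (k : ℕ) (x : ∀ i, X i) : ZMod 2 :=
  S.CT (Γ.chi x) (τ.psi Γ k x 0) (Γ.ch τ.b x)

/-- The colour of a point. -/
noncomputable def col (τ : Twr G V1 ι r) (Γ : Grid S X) (k : ℕ) (x : ∀ i, X i) :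
    Fin (r + 1) → ι → V := fun l i => τ.psi Γ k x l (S.sg (Γ.pl i (x i)))

/-- The hypotheses on the type data: the codes are in the frame, `c l` is supported in `sig l` (at
most one direction), `c 0 = a` has a tower of level `k`, `b` is orthogonal to the Selmer cocycles of
level `k - 1` at all points of the type. -/
structure Ok (τ : Twr G V1 ι r) (Γ : Grid S X) (k : ℕ) : Prop where
  c_mem : ∀ l, τ.c l ∈ Γ.FF
  b_mem : τ.b ∈ Γ.FF
  jl_pos : ∀ l, 1 ≤ τ.jl l
  jl_le : ∀ l, τ.jl l ≤ k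
  jl_zero : τ.jl 0 = k
  sig_card : ∀ l, (τ.sig l).card ≤ 1
  supp : ∀ l i, i ∉ τ.sig l → (τ.c l).2 i = 0
  perp : ∀ x ∈ τ.Y Γ k, ∀ Psi, S.IsSel (Γ.chi x) (k - 1) Psi →
    S.CT (Γ.chi x) Psi (Γ.ch τ.b x) = 0

variable [DecidableEq ι]

/-- The towers on the vertices of the cube `(y, z)`. -/
noncomputable def fam (τ : Twr G V1 ι r) (Γ : Grid S X) (k : ℕ) (y z : ∀ i, X i) (l : Fin (r + 1))
    (T : Finset ι) : G → V := τ.psi Γ k (SmA.mix T y z) l

/-- I4: the vertices of the `U`-cube `(y, z)` are in `B` and all its faces are minimal. -/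
def PU (τ : Twr G V1 ι r) (Γ : Grid S X) (k : ℕ) (B : Set (∀ i, X i)) (U : Finset ι)
    (y z : ∀ i, X i) : Prop :=
  (∀ j, j ∉ U → y j = z j) ∧ (∀ T, T ⊆ U → SmA.mix T y z ∈ B) ∧
    ∀ l, ∀ W, W ⊆ U → W.Nonempty → W.card ≤ τ.jl l → Disjoint W (τ.sig l) →
      ∀ T, T ⊆ U \ W → Mn (τ.jl l) (τ.fam Γ k y z l) W T

/-- I5: all the conditions on the faces of the cube `(x0, x)` inside the face with directions `U` at
the position `∅`: the vertices are in `Y`, with the colour of `x0`, and the faces are minimal. -/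
def FaceOk (τ : Twr G V1 ι r) (Γ : Grid S X) (k : ℕ) (U : Finset ι) (x0 x : ∀ i, X i) : Prop :=
  (∀ i ∈ U, x0 i ≠ x i) ∧
  (∀ T, T ⊆ U → SmA.mix T x0 x ∈ τ.Y Γ k ∧ τ.col Γ k (SmA.mix T x0 x) = τ.col Γ k x0) ∧
    ∀ l, ∀ W, W ⊆ U → W.Nonempty → W.card ≤ τ.jl l → Disjoint W (τ.sig l) →
      ∀ T, T ⊆ U \ W → Mn (τ.jl l) (τ.fam Γ k x0 x l) W T

/-- `x` is good for `x0`: the conditions hold on all the faces `{eps_i = 0}`. -/
def Good (τ : Twr G V1 ι r) (Γ : Grid S X) (k : ℕ) (x0 x : ∀ i, X i) : Prop :=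
  ∀ i : ι, τ.FaceOk Γ k (univ.erase i) x0 x

end Twr

end Pool.Agent.SmJ
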