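import Pool.Agent.Lib.SmJ.I.Delta
import Pool.Agent.Lib.Sm.I.Chain

/-!
SMITH, block I, section I4: few classes.
-/

set_option autoImplicit false

open Finset

namespace Pool.Agent.SmJ

open Pool.Agent.Sm (chain_classes)

open Pool.Agent.SmJ.IT Pool.Agent.SmA

variable {G V V1 Pl : Type*} [Group G] [AddCommGroup V] [DistribMulAction G V]
  [AddCommGroup V1] [Module (ZMod 2) V1] {S : Sys G V V1 Pl}
variable {ι : Type*} [Fintype ι] [DecidableEq ι] {X : ι → Type*} {r k : ℕ} {Γ : Grid S X}
variable {τ : Twr G V1 ι r}

omit [Fintype ι] in
private theorem few_mixL {a b : ∀ i, X i} {i : ι} {P : Finset ι} (hi : i ∉ P) (z w : X i) :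
    mix P (Function.update a i z) (Function.update b i w) =
      mix P (Function.update a i z) (Function.update b i z) := by
  rw [mix_update_notMem hi, mix_update_notMem hi]

omit [Fintype ι] in
private theorem few_mixR {a b : ∀ i, X i} {i : ι} {P : Finset ι} (hi : i ∉ P) (z w : X i) :
    mix (insert i P) (Function.update a i z) (Function.update b i w) =
      mix P (Function.update a i w) (Function.update b i w) := by
  rw [mix_update_insert, mix_update_notMem hi]

private theorem few_altL (F : V → V) {a b : ∀ i, X i} {i : ι} {W T : Finset ι} (hW : i ∉ W)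
    (hT : i ∉ T) (z w : X i) (l : Fin (r + 1)) (g : G) :
    alt W (fun P => F (τ.fam Γ k (Function.update a i z) (Function.update b i w) l P g)) T =
      alt W (fun P => F (τ.fam Γ k (Function.update a i z) (Function.update b i z) l P g)) T := by
  apply alt_congr
  intro T' hT'
  unfold Twr.fam
  rw [few_mixL (by
    rw [mem_union]
    push Not
    exact ⟨hT, fun h => hW (hT' h)⟩) z w]

private theorem few_altR (F : V → V) {a b : ∀ i, X i} {i : ι} {W T : Finset ι} (hW : i ∉ W)
    (hT : i ∉ T) (z w : X i) (l : Fin (r + 1)) (g : G) :
    alt W (fun P => F (τ.fam Γ k (Function.update a i z) (Function.update b i w) l P g))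
        (insert i T) =
      alt W (fun P => F (τ.fam Γ k (Function.update a i w) (Function.update b i w) l P g)) T := by
  unfold alt
  refine sum_congr rfl fun T' hT' => ?_
  rw [mem_powerset] at hT'
  unfold Twr.fam
  beta_reduce
  rw [insert_union, few_mixR (by
    rw [mem_union]
    push Not
    exact ⟨hT, fun h => hW (hT' h)⟩) z w]

private theorem few_alt (F : V → V) {a b : ∀ i, X i} {i : ι} {W T : Finset ι} (hW : i ∉ W)
    (hT : i ∉ T) (z w : X i) (l : Fin (r + 1)) (g : G) :
    alt (insert i W)
        (fun P => F (τ.fam Γ k (Function.update a i z) (Function.update b i w) l P g)) T =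
      alt W (fun P => F (τ.fam Γ k (Function.update a i z) (Function.update b i z) l P g)) T -
      alt W (fun P => F (τ.fam Γ k (Function.update a i w) (Function.update b i w) l P g)) T := by
  rw [alt_insert hW, few_altL F hW hT z w l g, few_altR F hW hT z w l g]

/-- The vertices of the mixed cube. -/
private theorem few_vert {B : Set (∀ i, X i)} {U : Finset ι} {a b : ∀ i, X i} {i : ι}
    {z w : X i}
    (hz : τ.PU Γ k B U (Function.update a i z) (Function.update b i z))
    (hw : τ.PU Γ k B U (Function.update a i w) (Function.update b i w))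
    {T : Finset ι} (hT : T ⊆ insert i U) :
    mix T (Function.update a i z) (Function.update b i w) ∈ B := by
  by_cases hiT : i ∈ T
  · have h1 : T = insert i (T.erase i) := (insert_erase hiT).symm
    rw [h1, few_mixR (notMem_erase i T)]
    apply hw.2.1
    intro x hx
    rw [mem_erase] at hx
    exact (mem_insert.1 (hT hx.2)).resolve_left hx.1
  · rw [few_mixL hiT]
    apply hz.2.1
    intro x hx
    refine (mem_insert.1 (hT hx)).resolve_left fun h => hiT (h ▸ hx)

/-- The faces of the mixed cube which do not contain the direction `i`. -/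
private theorem few_face {B : Set (∀ i, X i)} {U : Finset ι} {a b : ∀ i, X i} {i : ι}
    (hi : i ∉ U) {z w : X i}
    (hz : τ.PU Γ k B U (Function.update a i z) (Function.update b i z))
    (hw : τ.PU Γ k B U (Function.update a i w) (Function.update b i w))
    {l : Fin (r + 1)} {W : Finset ι} (hWU : W ⊆ U) (hne : W.Nonempty) (hj : W.card ≤ τ.jl l)
    (hσ : Disjoint W (τ.sig l)) {T : Finset ι} (hT : T ⊆ insert i U \ W) :
    Mn (τ.jl l) (τ.fam Γ k (Function.update a i z) (Function.update b i w) l) W T := by
  intro g
  have hiW : i ∉ W := fun h => hi (hWU h)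
  by_cases hiT : i ∈ T
  · have h1 : T = insert i (T.erase i) := (insert_erase hiT).symm
    rw [h1]
    refine (few_altR (fun x => (2 : ℕ) ^ (τ.jl l - W.card) • x) hiW (notMem_erase i T) z w l
      g).trans ?_
    refine hw.2.2 l W hWU hne hj hσ (T.erase i) (fun x hx => ?_) g
    rw [mem_erase] at hx
    have h2 := mem_sdiff.1 (hT hx.2)
    exact mem_sdiff.2 ⟨(mem_insert.1 h2.1).resolve_left hx.1, h2.2⟩
  · refine (few_altL (fun x => (2 : ℕ) ^ (τ.jl l - W.card) • x) hiW hiT z w l g).trans ?_
    refine hz.2.2 l W hWU hne hj hσ T (fun x hx => ?_) g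
    have h2 := mem_sdiff.1 (hT hx)
    exact mem_sdiff.2 ⟨(mem_insert.1 h2.1).resolve_left fun h => hiT (h ▸ hx), h2.2⟩

/-- I4: few classes. -/
theorem few_classes (hS : S.Ok) (hΓ : Γ.Ok) (hτ : τ.Ok Γ k) (B : Set (∀ i, X i))
    (c0 : Fin (r + 1) → ι → V) (hB : ∀ x ∈ B, x ∈ τ.Y Γ k ∧ τ.col Γ k x = c0) (N : ℕ)
    (hN : 0 < N) (hsel : ∀ x ∈ B, {b | S.IsSel1 (Γ.chi x) b}.Finite ∧
      {b | S.IsSel1 (Γ.chi x) b}.ncard ≤ N)
    (U : Finset ι) (i : ι) (hi : i ∉ U) (a b : ∀ i, X i) (hab : ∀ j, j ∉ U → a j = b j) :
    ∃ κ : X i → Fin ((Nat.card V1 ^ Fintype.card ι * N) ^ ((r + 1) * 4 ^ Fintype.card ι)),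
      ∀ z w : X i,
      τ.PU Γ k B U (Function.update a i z) (Function.update b i z) →
      τ.PU Γ k B U (Function.update a i w) (Function.update b i w) → κ z = κ w →
      τ.PU Γ k B (insert i U) (Function.update a i z) (Function.update b i w) := by
  classical
  have := hS.fin1
  have hcV : 0 < Nat.card V1 := Nat.card_pos
  let A : Set (X i) := {z | τ.PU Γ k B U (Function.update a i z) (Function.update b i z)}
  let val : Fin (r + 1) × Finset ι × Finset ι → Prop := fun m =>
    m.2.1 ⊆ U ∧ m.2.2 ⊆ U \ m.2.1 ∧ m.2.1.card + 1 ≤ τ.jl m.1 ∧
      Disjoint (insert i m.2.1) (τ.sig m.1)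
  let v : Fin (r + 1) × Finset ι × Finset ι → X i → G → V := fun m z =>
    if val m then fun g => alt m.2.1 (fun P => (2 : ℕ) ^ (τ.jl m.1 - (m.2.1.card + 1)) •
      τ.fam Γ k (Function.update a i z) (Function.update b i z) m.1 P g) m.2.2 else 0
  have hv : ∀ m z g, val m → v m z g = alt m.2.1 (fun P =>
      (2 : ℕ) ^ (τ.jl m.1 - (m.2.1.card + 1)) •
      τ.fam Γ k (Function.update a i z) (Function.update b i z) m.1 P g) m.2.2 := by
    intro m z g hm
    simp only [v, hm, if_true]
  -- the faces which contain the direction `i`
  have hface : ∀ (l : Fin (r + 1)) (W T : Finset ι), val (l, W, T) → ∀ z w : X i,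
      v (l, W, T) z = v (l, W, T) w →
      Mn (τ.jl l) (τ.fam Γ k (Function.update a i z) (Function.update b i w) l)
        (insert i W) T := by
    intro l W T hval z w hzw g
    have hiW : i ∉ W := fun h => hi (hval.1 h)
    have hiT : i ∉ T := fun h => hi (mem_sdiff.1 (hval.2.1 h)).1
    rw [card_insert_of_notMem hiW]
    refine (few_alt (fun x => (2 : ℕ) ^ (τ.jl l - (W.card + 1)) • x) hiW hiT z w l g).trans ?_
    have h1 := congrFun hzw g
    rw [hv _ _ _ hval, hv _ _ _ hval] at h1
    exact sub_eq_zero.2 h1
  obtain ⟨κ, hκ⟩ := chain_classes A v (fun m => m.2.1.card)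
    (Nat.card V1 ^ Fintype.card ι * N) (by positivity) univ (fun _ _ _ _ => mem_univ _) (by
      rintro ⟨l, W, T⟩ - z hz
      by_cases hval : val (l, W, T)
      · have hiW : i ∉ W := fun h => hi (hval.1 h)
        have hiT : i ∉ T := fun h => hi (mem_sdiff.1 (hval.2.1 h)).1
        have hcard : (insert i W).card = W.card + 1 := card_insert_of_notMem hiW
        set x : ∀ i, X i := mix T (Function.update a i z) (Function.update b i z) with hx
        have hxB : x ∈ B := hz.2.1 T (hval.2.1.trans sdiff_subset)
        obtain ⟨h1, h2⟩ := HH_card hS hΓ x (insert i W) (hsel x hxB).1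
        refine ⟨h1.toFinset.image (fun h g => v (l, W, T) z g - S.iota (h g)), ?_, ?_⟩
        · refine card_image_le.trans ?_
          rw [← Set.ncard_eq_toFinset_card _ h1]
          refine h2.trans (Nat.mul_le_mul (Nat.pow_le_pow_right hcV ?_) (hsel x hxB).2)
          exact card_le_univ _
        · intro w hw hlow
          obtain ⟨h, hh, hh'⟩ := delta_mem hS hΓ hτ (c0 := c0) (y := Function.update a i z)
            (z := Function.update b i w) (l := l) (W := insert i W) (T := T)
            (by
              rw [disjoint_insert_left]
              exact ⟨hiT, disjoint_left.2 fun x hxW hxT => (mem_sdiff.1 (hval.2.1 hxT)).2 hxW⟩)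
            (insert_nonempty i W) (by rw [hcard]; exact hval.2.2.1) hval.2.2.2
            (fun T' hT' => hB _ (few_vert hz hw (union_subset
              ((hval.2.1.trans sdiff_subset).trans (subset_insert i U))
              (hT'.trans (insert_subset_insert i hval.1)))))
            (by
              intro W' hW' hne' T' hT'
              have hT'' : ∀ x ∈ T', x ∈ insert i W ∧ x ∉ W' := fun x hx => mem_sdiff.1 (hT' hx)
              have hW'' : W' ⊆ insert i W := hW'.subset
              by_cases hiW' : i ∈ W'
              · -- a face through the direction `i`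
                have e1 : W' = insert i (W'.erase i) := (insert_erase hiW').symm
                have hss : W'.erase i ⊂ W := by
                  refine ⟨fun x hx => ?_, fun hc => hW'.2 fun x hx => ?_⟩
                  · rw [mem_erase] at hx
                    exact (mem_insert.1 (hW'' hx.2)).resolve_left hx.1
                  · rcases mem_insert.1 hx with rfl | hx'
                    · exact hiW'
                    · exact (mem_erase.1 (hc hx')).2
                have hval' : val (l, W'.erase i, T ∪ T') := by
                  refine ⟨hss.subset.trans hval.1, ?_, ?_, ?_⟩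
                  · intro x hx
                    rcases mem_union.1 hx with hx' | hx'
                    · have h3 := mem_sdiff.1 (hval.2.1 hx')
                      exact mem_sdiff.2 ⟨h3.1, fun h4 => h3.2 (hss.subset h4)⟩
                    · have h3 := hT'' x hx'
                      have h5 : x ≠ i := fun h => h3.2 (h ▸ hiW')
                      refine mem_sdiff.2 ⟨hval.1 ((mem_insert.1 h3.1).resolve_left h5), fun h4 =>
                        h3.2 (mem_erase.1 h4).2⟩
                  · have := card_lt_card hss
                    have h6 : W.card + 1 ≤ τ.jl l := hval.2.2.1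
                    change (W'.erase i).card + 1 ≤ τ.jl l
                    omega
                  · change Disjoint (insert i (W'.erase i)) (τ.sig l)
                    rw [← e1]
                    exact hval.2.2.2.mono_left hW''
                rw [e1]
                exact hface l (W'.erase i) (T ∪ T') hval' z w
                  (hlow _ (mem_univ _) (card_lt_card hss))
              · have hW'W : W' ⊆ W := fun x hx =>
                  (mem_insert.1 (hW'' hx)).resolve_left fun h => hiW' (h ▸ hx)
                refine few_face hi hz hw (hW'W.trans hval.1) hne' ?_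
                  (hval.2.2.2.mono_left hW'') ?_
                · have := card_le_card hW'W
                  have h6 : W.card + 1 ≤ τ.jl l := hval.2.2.1
                  change W'.card ≤ τ.jl l
                  omega
                · intro x hx
                  rcases mem_union.1 hx with hx' | hx'
                  · have h3 := mem_sdiff.1 (hval.2.1 hx')
                    exact mem_sdiff.2 ⟨mem_insert_of_mem h3.1, fun h4 => h3.2 (hW'W h4)⟩
                  · have h3 := hT'' x hx'
                    exact mem_sdiff.2 ⟨insert_subset_insert i hval.1 h3.1, h3.2⟩)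
          rw [mem_image]
          refine ⟨h, ?_, ?_⟩
          · rw [Set.Finite.mem_toFinset]
            have e2 : mix T (Function.update a i z) (Function.update b i w) = x :=
              few_mixL hiT z w
            rwa [e2] at hh
          · funext g
            rw [hh' g, hv _ _ _ hval, hv _ _ _ hval, hcard]
            have e3 := few_alt (τ := τ) (Γ := Γ) (k := k)
              (fun x => (2 : ℕ) ^ (τ.jl l - (W.card + 1)) • x) (a := a) (b := b) hiW hiT z w l g
            rw [e3]
            abel
      · refine ⟨{0}, ?_, fun w _ _ => ?_⟩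
        · rw [card_singleton]
          have : 0 < Nat.card V1 ^ Fintype.card ι * N := by positivity
          omega
        · rw [mem_singleton]
          simp only [v, hval, if_false])
  have hcI : (univ : Finset (Fin (r + 1) × Finset ι × Finset ι)).card =
      (r + 1) * 4 ^ Fintype.card ι := by
    rw [card_univ, Fintype.card_prod, Fintype.card_prod, Fintype.card_fin, Fintype.card_finset,
      ← mul_pow]
    norm_num
  refine ⟨fun z => Fin.cast (by rw [hcI]) (κ z), fun z w hz hw hzw => ?_⟩
  have hzw' : κ z = κ w := Fin.cast_injective _ hzw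
  have hag : ∀ m, v m z = v m w := fun m => hκ z hz w hw hzw' m (mem_univ m)
  refine ⟨fun j hj => ?_, fun T hT => few_vert hz hw hT, fun l W hW hne hj hσ T hT => ?_⟩
  · rw [mem_insert] at hj
    push Not at hj
    rw [Function.update_of_ne hj.1, Function.update_of_ne hj.1, hab j hj.2]
  · by_cases hiW : i ∈ W
    · have e1 : W = insert i (W.erase i) := (insert_erase hiW).symm
      have hval : val (l, W.erase i, T) := by
        refine ⟨fun x hx => ?_, fun x hx => ?_, ?_, ?_⟩
        · rw [mem_erase] at hx
          exact (mem_insert.1 (hW hx.2)).resolve_left hx.1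
        · have h3 := mem_sdiff.1 (hT hx)
          have h5 : x ≠ i := fun h => h3.2 (h ▸ hiW)
          exact mem_sdiff.2 ⟨(mem_insert.1 h3.1).resolve_left h5, fun h4 =>
            h3.2 (mem_erase.1 h4).2⟩
        · have h4 := card_erase_of_mem hiW
          have h5 : 0 < W.card := card_pos.2 ⟨i, hiW⟩
          change (W.erase i).card + 1 ≤ τ.jl l
          omega
        · change Disjoint (insert i (W.erase i)) (τ.sig l)
          rw [← e1]
          exact hσ
      rw [e1]
      exact hface l _ T hval z w (hag _)
    · have hWU : W ⊆ U := fun x hx =>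
        (mem_insert.1 (hW hx)).resolve_left fun h => hiW (h ▸ hx)
      exact few_face hi hz hw hWU hne hj hσ hT

end Pool.Agent.SmJ
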