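import Pool.Agent.Lib.SmJ.I.Frame
import Pool.Agent.Lib.Sm.I.Uni
import Pool.Agent.Lib.SmJ.H.Th

/-!
SMITH, block I, joint between I5 and I6: the lower face `{eps_ib = 0}` of the cube `(x0, x)` and the
cochains `UU x0 x'` on it. The directions are `Option (Option (Fin k))`, `none = ib`,
`some none = ia`.
-/

set_option autoImplicit false

open Finset

namespace Pool.Agent.SmJ

open Pool.Agent.Sm (Uni)

variable {G V V1 Pl : Type*} [Group G] [AddCommGroup V] [DistribMulAction G V]
  [AddCommGroup V1] [Module (ZMod 2) V1] {S : Sys G V V1 Pl}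
variable {k r : ℕ} {X : Option (Option (Fin k)) → Type*}

/-- The point with the coordinate of `x0` in the direction `none` and the other coordinates `x'`. -/
def extP (x0 : ∀ i, X i) (x' : ∀ i : Option (Fin k), X (some i)) : ∀ i, X i
  | none => x0 none
  | some i => x' i

/-- The set of directions `T ∪ {ia}`. -/
def upF (T : Finset (Fin k)) : Finset (Option (Option (Fin k))) :=
  insert (some none) (T.map ⟨fun i => some (some i), fun _ _ h =>
    Option.some.inj (Option.some.inj h)⟩)

/-- The conditions on the lower face. -/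
def Twr.FG (τ : Twr G V1 (Option (Option (Fin k))) r) (Γ : Grid S X) (x0 : ∀ i, X i)
    (x' : ∀ i : Option (Fin k), X (some i)) : Prop :=
  τ.FaceOk Γ k (univ.erase none) x0 (extP x0 x')

/-- `Th` has the properties needed on the lower face. -/
def Twr.IsTh (τ : Twr G V1 (Option (Option (Fin k))) r) (Γ : Grid S X) (x0 : ∀ i, X i)
    (x' : ∀ i : Option (Fin k), X (some i)) (Th : G → V1) : Prop :=
  S.TF Th ∧ ThRel S k (Γ.del x0 (extP x0 x')) (τ.fam Γ k x0 (extP x0 x') 0) (univ.erase none) Th ∧
    ∀ v, v ≠ S.inf → Th (S.sg v) = 0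

open Classical in
/-- The chosen function `Th`. -/
noncomputable def Twr.Th (τ : Twr G V1 (Option (Option (Fin k))) r) (Γ : Grid S X) (x0 : ∀ i, X i)
    (x' : ∀ i : Option (Fin k), X (some i)) : G → V1 :=
  if h : ∃ Th, τ.IsTh Γ x0 x' Th then h.choose else 0

/-- The cochains on the lower face (I6). -/
noncomputable def Twr.UU (τ : Twr G V1 (Option (Option (Fin k))) r) (Γ : Grid S X) (x0 : ∀ i, X i)
    (x' : ∀ i : Option (Fin k), X (some i)) : Uni (Fin k) G V1 where
  dl i s := Γ.th (some (some i)) (x0 (some (some i))) s + Γ.th (some (some i)) (x' (some i)) s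
  Phi T := if T = univ then τ.Th Γ x0 x' else
    PhiC S k (τ.fam Γ k x0 (extP x0 x') 0) (upF T)

end Pool.Agent.SmJ
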